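import Mathlib.Analysis.Calculus.Gradient.Basic
import Mathlib.Analysis.Convex.Strong

/-! Definitions for the heavy-ball problem MP_979a03_an. -/

namespace Pool.Agent.MP_979a03_an

open Filter Topology

/-- `f : ℝ^d → ℝ` is `L`-smooth (differentiable with `L`-Lipschitz gradient) and
`μ`-strongly convex. -/
def InClass (μ L : ℝ) {d : ℕ} (f : EuclideanSpace ℝ (Fin d) → ℝ) : Prop :=
  Differentiable ℝ f ∧ (∀ x y, ‖gradient f x - gradient f y‖ ≤ L * ‖x - y‖) ∧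
    StrongConvexOn Set.univ μ f

/-- `x` is generated by the heavy-ball method with tuning `(γ, β)` on `f`
(from arbitrary `x 0`, `x 1`). -/
def IsHB (γ β : ℝ) {d : ℕ} (f : EuclideanSpace ℝ (Fin d) → ℝ)
    (x : ℕ → EuclideanSpace ℝ (Fin d)) : Prop :=
  ∀ t, x (t + 2) = x (t + 1) - γ • gradient f (x (t + 1)) + β • (x (t + 1) - x t)

/-- Heavy ball with tuning `(γ, β)` converges on the class: in every dimension `d ≥ 1`, for every
`f` in the class, every generated sequence tends to a minimiser of `f`. -/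
def Converges (μ L γ β : ℝ) : Prop :=
  ∀ d : ℕ, 1 ≤ d → ∀ f : EuclideanSpace ℝ (Fin d) → ℝ, InClass μ L f →
    ∀ x : ℕ → EuclideanSpace ℝ (Fin d), IsHB γ β f x →
      ∃ xs, IsMinOn f Set.univ xs ∧ Tendsto x atTop (𝓝 xs)

/-- The candidate Lyapunov value built from the consecutive iterates `p = x_{t-1}`, `q = x_t`. -/
noncomputable def lyapV (a₁ a₂ : ℝ) (c : Fin 4 → Fin 4 → ℝ) {d : ℕ}
    (f : EuclideanSpace ℝ (Fin d) → ℝ) (xs p q : EuclideanSpace ℝ (Fin d)) : ℝ :=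
  a₁ * (f q - f xs) + a₂ * (f p - f xs) +
    ∑ i : Fin 4, ∑ j : Fin 4, if i ≤ j then
      c i j * inner ℝ (![p - xs, gradient f p, q - xs, gradient f q] i)
        (![p - xs, gradient f p, q - xs, gradient f q] j) else 0

/-- The Lyapunov region. -/
def InLyap (μ L γ β : ℝ) : Prop :=
  ∃ (a₁ a₂ : ℝ) (c : Fin 4 → Fin 4 → ℝ), ∀ d : ℕ, 1 ≤ d →
    ∀ f : EuclideanSpace ℝ (Fin d) → ℝ, InClass μ L f → ∀ xs, IsMinOn f Set.univ xs →
      ∀ x : ℕ → EuclideanSpace ℝ (Fin d), IsHB γ β f x → ∀ t : ℕ,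
        f (x (t + 2)) - f xs ≤ lyapV a₁ a₂ c f xs (x (t + 1)) (x (t + 2)) ∧
        lyapV a₁ a₂ c f xs (x (t + 1)) (x (t + 2)) ≤ lyapV a₁ a₂ c f xs (x t) (x (t + 1))

/-- The cycle region. -/
def InCyc (μ L γ β : ℝ) : Prop :=
  ∃ K : ℕ, 3 ≤ K ∧ ∃ d : ℕ, 1 ≤ d ∧ ∃ f : EuclideanSpace ℝ (Fin d) → ℝ, InClass μ L f ∧
    ∃ x : ℕ → EuclideanSpace ℝ (Fin d), IsHB γ β f x ∧ (∀ t, x t = x (t % K)) ∧
      ∃ i < K, ∃ j < K, x i ≠ x j

/-- The tunings that converge on all quadratics of the class. -/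
def Stable (L γ β : ℝ) : Prop := β < 1 ∧ 0 < γ ∧ γ * L < 2 * (1 + β)

end Pool.Agent.MP_979a03_an
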