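import Mathlib.Algebra.Order.Ring.Star
import Mathlib.Algebra.Order.Star.Real
import Mathlib.Algebra.Ring.IsFormallyReal
import Mathlib.RingTheory.PiTensorProduct
import Pool.Agent.MP_979a03_an.Defs

/-! Smooth convex interpolation. -/

namespace Pool.Agent.MP_979a03_an

open Filter Topology

variable {E : Type*} [NormedAddCommGroup E] [InnerProductSpace ℝ E]

/-- `W` is the gradient field of the convex, `ℓ`-smooth function `h`. -/
def Fld (ℓ : ℝ) (h : E → ℝ) (W : E → E) : Prop :=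
  ∀ x y, h x + inner ℝ (W x) (y - x) + ‖W y - W x‖ ^ 2 / (2 * ℓ) ≤ h y

lemma Fld.lower {ℓ : ℝ} (hl : 0 < ℓ) {h : E → ℝ} {W : E → E} (H : Fld ℓ h W) (x y : E) :
    h x + inner ℝ (W x) (y - x) ≤ h y := by
  have := H x y
  have h2 : 0 ≤ ‖W y - W x‖ ^ 2 / (2 * ℓ) := by positivity
  linarith

lemma young (ℓ : ℝ) (hl : 0 < ℓ) (a b : E) :
    inner ℝ a b ≤ ‖a‖ ^ 2 / (2 * ℓ) + ℓ / 2 * ‖b‖ ^ 2 := by
  have h1 := real_inner_le_norm a b
  have h2 : ‖a‖ * ‖b‖ ≤ ‖a‖ ^ 2 / (2 * ℓ) + ℓ / 2 * ‖b‖ ^ 2 := by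
    have : ‖a‖ ^ 2 / (2 * ℓ) + ℓ / 2 * ‖b‖ ^ 2 - ‖a‖ * ‖b‖ = (‖a‖ - ℓ * ‖b‖) ^ 2 / (2 * ℓ) := by
      field_simp; ring
    have h3 : 0 ≤ (‖a‖ - ℓ * ‖b‖) ^ 2 / (2 * ℓ) := by positivity
    linarith
  linarith

lemma Fld.upper {ℓ : ℝ} (hl : 0 < ℓ) {h : E → ℝ} {W : E → E} (H : Fld ℓ h W) (x y : E) :
    h y ≤ h x + inner ℝ (W x) (y - x) + ℓ / 2 * ‖y - x‖ ^ 2 := by
  have h1 := H y x
  have h2 := young ℓ hl (W y - W x) (y - x)
  have e1 : inner ℝ (W y) (x - y) = - inner ℝ (W y) (y - x) := by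
    rw [← inner_neg_right]; congr 1; abel
  rw [inner_sub_left] at h2
  rw [e1, norm_sub_rev (W x)] at h1
  linarith

lemma Fld.lip {ℓ : ℝ} (hl : 0 < ℓ) {h : E → ℝ} {W : E → E} (H : Fld ℓ h W) (x y : E) :
    ‖W x - W y‖ ≤ ℓ * ‖x - y‖ := by
  have h1 := H x y
  have h2 := H y x
  have e1 : inner ℝ (W x) (y - x) = - inner ℝ (W x) (x - y) := by
    rw [← inner_neg_right]; congr 1; abel
  rw [e1, norm_sub_rev (W y)] at h1
  have h3 : ‖W x - W y‖ ^ 2 / ℓ ≤ inner ℝ (W x - W y) (x - y) := by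
    rw [inner_sub_left]
    have : ‖W x - W y‖ ^ 2 / ℓ = ‖W x - W y‖ ^ 2 / (2 * ℓ) + ‖W x - W y‖ ^ 2 / (2 * ℓ) := by
      field_simp; ring
    linarith
  have h4 := real_inner_le_norm (W x - W y) (x - y)
  have h5 : ‖W x - W y‖ ^ 2 ≤ ℓ * (‖W x - W y‖ * ‖x - y‖) := by
    have := h3.trans h4
    rw [div_le_iff₀ hl] at this
    linarith
  rcases eq_or_lt_of_le (norm_nonneg (W x - W y)) with h0 | h0
  · rw [← h0]; positivity
  · nlinarith

lemma hasGradientAt_of_sq [CompleteSpace E] {f : E → ℝ} {g x : E} {C : ℝ}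
    (hf : ∀ y, |f y - f x - inner ℝ g (y - x)| ≤ C * ‖y - x‖ ^ 2) : HasGradientAt f g x := by
  rw [hasGradientAt_iff_isLittleO]
  have h1 : (fun y => f y - f x - inner ℝ g (y - x)) =O[𝓝 x] (fun y => ‖y - x‖ ^ 2) := by
    refine Asymptotics.IsBigO.of_bound C (Eventually.of_forall fun y => ?_)
    rw [Real.norm_eq_abs, Real.norm_eq_abs, abs_of_nonneg (by positivity : 0 ≤ ‖y - x‖ ^ 2)]
    exact hf y
  exact h1.trans_isLittleO (Asymptotics.isLittleO_pow_sub_sub x (by norm_num))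

lemma Fld.hasGradientAt [CompleteSpace E] {ℓ : ℝ} (hl : 0 < ℓ) {h : E → ℝ} {W : E → E}
    (H : Fld ℓ h W) (μ : ℝ) (x : E) :
    HasGradientAt (fun y => h y + μ / 2 * ‖y‖ ^ 2) (W x + μ • x) x := by
  refine hasGradientAt_of_sq (C := ℓ / 2 + |μ| / 2) fun y => ?_
  have h1 := H.lower hl x y
  have h2 := H.upper hl x y
  have e : ‖y‖ ^ 2 = ‖x‖ ^ 2 + 2 * inner ℝ x (y - x) + ‖y - x‖ ^ 2 := by
    have : y = x + (y - x) := by abel
    conv_lhs => rw [this]
    rw [norm_add_sq_real]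
  rw [inner_add_left, real_inner_smul_left, e]
  have h3 : |μ / 2 * ‖y - x‖ ^ 2| ≤ |μ| / 2 * ‖y - x‖ ^ 2 := by
    rw [abs_mul, abs_div, abs_of_nonneg (by positivity : 0 ≤ ‖y - x‖ ^ 2)]; norm_num
  have h4 := abs_le.mp h3
  have h5 : 0 ≤ ℓ / 2 * ‖y - x‖ ^ 2 := by positivity
  rw [abs_le]
  constructor <;> nlinarith [h4.1, h4.2]

lemma Fld.convexOn {ℓ : ℝ} (hl : 0 < ℓ) {h : E → ℝ} {W : E → E} (H : Fld ℓ h W) :
    ConvexOn ℝ Set.univ h := by
  refine ⟨convex_univ, fun x _ y _ a b ha hb hab => ?_⟩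
  have h1 := H.lower hl (a • x + b • y) x
  have h2 := H.lower hl (a • x + b • y) y
  have e : a * inner ℝ (W (a • x + b • y)) (x - (a • x + b • y)) +
      b * inner ℝ (W (a • x + b • y)) (y - (a • x + b • y)) = 0 := by
    rw [← real_inner_smul_right, ← real_inner_smul_right, ← inner_add_right]
    have : a • (x - (a • x + b • y)) + b • (y - (a • x + b • y)) = 0 := by
      rw [smul_sub, smul_sub]
      have : a • (a • x + b • y) + b • (a • x + b • y) = a • x + b • y := by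
        rw [← add_smul, hab, one_smul]
      rw [sub_add_sub_comm, this, sub_self]
    rw [this, inner_zero_right]
  simp only [smul_eq_mul]
  have h3 := mul_le_mul_of_nonneg_left h1 ha
  have h4 := mul_le_mul_of_nonneg_left h2 hb
  have : h (a • x + b • y) = a * h (a • x + b • y) + b * h (a • x + b • y) := by
    rw [← add_mul, hab, one_mul]
  nlinarith

lemma Fld.inClass {d : ℕ} {μ L : ℝ} (hμ : 0 < μ) (hl : μ < L)
    {h : EuclideanSpace ℝ (Fin d) → ℝ} {W : EuclideanSpace ℝ (Fin d) → EuclideanSpace ℝ (Fin d)}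
    (H : Fld (L - μ) h W) :
    InClass μ L (fun y => h y + μ / 2 * ‖y‖ ^ 2) ∧
      ∀ x, gradient (fun y => h y + μ / 2 * ‖y‖ ^ 2) x = W x + μ • x := by
  have hl' : 0 < L - μ := by linarith
  have hg : ∀ x, gradient (fun y => h y + μ / 2 * ‖y‖ ^ 2) x = W x + μ • x :=
    fun x => (H.hasGradientAt hl' μ x).gradient
  refine ⟨⟨fun x => (H.hasGradientAt hl' μ x).differentiableAt, fun x y => ?_, ?_⟩, hg⟩
  · rw [hg, hg]
    have e : W x + μ • x - (W y + μ • y) = (W x - W y) + μ • (x - y) := by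
      rw [smul_sub]; abel
    rw [e]
    have h1 := norm_add_le (W x - W y) (μ • (x - y))
    rw [norm_smul, Real.norm_eq_abs, abs_of_pos hμ] at h1
    have h2 := H.lip hl' x y
    linarith
  · rw [strongConvexOn_iff_convex]
    have : (fun x => h x + μ / 2 * ‖x‖ ^ 2 - μ / (2:ℝ) * ‖x‖ ^ 2) = h := by
      funext x; ring
    rw [this]
    exact H.convexOn hl'

/-- Interpolation of finitely many data. -/
theorem interp {ι : Type*} [Fintype ι] [Nonempty ι] {ℓ : ℝ} (hl : 0 < ℓ) (x w : ι → E)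
    (v : ι → ℝ)
    (H : ∀ i j, v i + inner ℝ (w i) (x j - x i) + ‖w j - w i‖ ^ 2 / (2 * ℓ) ≤ v j) :
    ∃ (h : E → ℝ) (W : E → E) (B : ℝ), Fld ℓ h W ∧ (∀ i, W (x i) = w i ∧ h (x i) = v i) ∧
      ∀ y, ‖W y‖ ≤ B := by
  classical
  set a : ι → ℝ := fun i => inner ℝ (w i) (x i) - ‖w i‖ ^ 2 / (2 * ℓ) - v i with ha
  set S : (ι → ℝ) → E := fun l => ∑ i, l i • w i with hS
  set F : E → (ι → ℝ) → ℝ :=
    fun y l => inner ℝ (S l) y - ‖S l‖ ^ 2 / (2 * ℓ) - ∑ i, l i * a i with hF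
  have hSc : Continuous S := by
    rw [hS]; fun_prop
  have hFc : ∀ y, Continuous (F y) := by
    intro y; rw [hF]; fun_prop
  have hne : (stdSimplex ℝ ι).Nonempty :=
    ⟨_, single_mem_stdSimplex ℝ (Classical.arbitrary ι)⟩
  have hex : ∀ y, ∃ l ∈ stdSimplex ℝ ι, IsMaxOn (F y) (stdSimplex ℝ ι) l :=
    fun y => (isCompact_stdSimplex ℝ ι).exists_isMaxOn hne (hFc y).continuousOn
  choose lam hlam hmax using hex
  have key : ∀ y, ∀ l ∈ stdSimplex ℝ ι,
      F y l + ‖S l - S (lam y)‖ ^ 2 / (2 * ℓ) ≤ F y (lam y) := by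
    intro y l hl1
    have step : ∀ s : ℝ, 0 < s → s ≤ 1 →
        F y l + (1 - s) * (‖S l - S (lam y)‖ ^ 2 / (2 * ℓ)) ≤ F y (lam y) := by
      intro s hs0 hs1
      have hm : (1 - s) • lam y + s • l ∈ stdSimplex ℝ ι :=
        convex_stdSimplex ℝ ι (hlam y) hl1 (by linarith) hs0.le (by ring)
      have h1 : F y ((1 - s) • lam y + s • l) ≤ F y (lam y) := hmax y hm
      have eS : S ((1 - s) • lam y + s • l) = S (lam y) + s • (S l - S (lam y)) := by
        simp only [hS, Pi.add_apply, Pi.smul_apply, smul_eq_mul, add_smul, Finset.sum_add_distrib,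
          mul_smul, ← Finset.smul_sum]
        module
      have eA : ∑ i, ((1 - s) • lam y + s • l) i * a i =
          (1 - s) * ∑ i, lam y i * a i + s * ∑ i, l i * a i := by
        simp only [Pi.add_apply, Pi.smul_apply, smul_eq_mul, add_mul, Finset.sum_add_distrib,
          Finset.mul_sum, mul_assoc]
      have eN : ‖S l‖ ^ 2 = ‖S (lam y)‖ ^ 2 + 2 * inner ℝ (S (lam y)) (S l - S (lam y)) +
          ‖S l - S (lam y)‖ ^ 2 := by
        have : S l = S (lam y) + (S l - S (lam y)) := by abel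
        conv_lhs => rw [this]
        rw [norm_add_sq_real]
      have e1 : F y ((1 - s) • lam y + s • l) = F y (lam y) +
          s * (F y l + (1 - s) * (‖S l - S (lam y)‖ ^ 2 / (2 * ℓ)) - F y (lam y)) := by
        simp only [hF]
        rw [eS, eA, norm_add_sq_real, inner_add_left, real_inner_smul_left, real_inner_smul_right,
          norm_smul, Real.norm_eq_abs, abs_of_pos hs0, eN, inner_sub_left (S l)]
        field_simp
        ring
      rw [e1] at h1
      have : s * (F y l + (1 - s) * (‖S l - S (lam y)‖ ^ 2 / (2 * ℓ)) - F y (lam y)) ≤ 0 := by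
        linarith
      by_contra hc
      rw [not_le] at hc
      nlinarith
    by_contra hc
    rw [not_le] at hc
    set D := ‖S l - S (lam y)‖ ^ 2 / (2 * ℓ) with hD
    have hD0 : 0 ≤ D := by positivity
    set η := F y l + D - F y (lam y) with hη
    have hη0 : 0 < η := by linarith
    have h1 := step (min 1 (η / (2 * (D + 1)))) (by positivity) (min_le_left _ _)
    have h2 : min 1 (η / (2 * (D + 1))) * D ≤ η / (2 * (D + 1)) * D :=
      mul_le_mul_of_nonneg_right (min_le_right _ _) hD0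
    have h3 : η / (2 * (D + 1)) * D < η := by
      rw [div_mul_eq_mul_div, div_lt_iff₀ (by positivity)]
      nlinarith
    linarith
  refine ⟨fun y => F y (lam y), fun y => S (lam y), ∑ i, ‖w i‖, ?_, ?_, ?_⟩
  · intro y z
    have h1 := key z (lam y) (hlam y)
    have e : F z (lam y) = F y (lam y) + inner ℝ (S (lam y)) (z - y) := by
      simp only [hF]; rw [inner_sub_right]; ring
    rw [norm_sub_rev] at h1
    simp only
    linarith
  · intro i
    have hSi : S (Pi.single i 1) = w i := by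
      simp [hS]
    have hFi : F (x i) (Pi.single i 1) = v i := by
      simp only [hF]; rw [hSi]; simp [Pi.single_apply, ha]
    have hup : ∀ l ∈ stdSimplex ℝ ι, F (x i) l + ‖S l - w i‖ ^ 2 / (2 * ℓ) ≤ v i := by
      intro l hl1
      have e1 : F (x i) l + ‖S l - w i‖ ^ 2 / (2 * ℓ) =
          ∑ j, l j * (v j + inner ℝ (w j) (x i - x j) + ‖w i - w j‖ ^ 2 / (2 * ℓ)) := by
        have e2 : ∀ j, v j + inner ℝ (w j) (x i - x j) + ‖w i - w j‖ ^ 2 / (2 * ℓ) =
            inner ℝ (w j) (x i) - inner ℝ (w j) (w i) / ℓ + ‖w i‖ ^ 2 / (2 * ℓ) - a j := by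
          intro j
          simp only [ha]
          rw [norm_sub_sq_real, inner_sub_right, real_inner_comm (w j) (w i)]
          field_simp
          ring
        simp only [e2, mul_sub, mul_add, Finset.sum_sub_distrib, Finset.sum_add_distrib]
        rw [← Finset.sum_mul, hl1.2]
        have e3 : ∀ z : E, inner ℝ (S l) z = ∑ j, l j * inner ℝ (w j) z := by
          intro z; simp only [hS, sum_inner, real_inner_smul_left]
        have e4 : ∑ j, l j * (inner ℝ (w j) (w i) / ℓ) = inner ℝ (S l) (w i) / ℓ := by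
          rw [e3, Finset.sum_div]; refine Finset.sum_congr rfl fun j _ => by ring
        rw [e4, ← e3]
        simp only [hF]
        rw [norm_sub_sq_real]
        field_simp
        ring
      rw [e1]
      calc _ ≤ ∑ j, l j * v i :=
            Finset.sum_le_sum fun j _ => mul_le_mul_of_nonneg_left (H j i) (hl1.1 j)
        _ = v i := by rw [← Finset.sum_mul, hl1.2, one_mul]
    have h1 := hup _ (hlam (x i))
    have h2 : F (x i) (Pi.single i 1) ≤ F (x i) (lam (x i)) :=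
      hmax (x i) (single_mem_stdSimplex ℝ i)
    rw [hFi] at h2
    have h3 : 0 ≤ ‖S (lam (x i)) - w i‖ ^ 2 / (2 * ℓ) := by positivity
    have h4 : ‖S (lam (x i)) - w i‖ ^ 2 / (2 * ℓ) = 0 := by linarith
    have h5 : ‖S (lam (x i)) - w i‖ ^ 2 = 0 := by
      rcases div_eq_zero_iff.mp h4 with h | h
      · exact h
      · linarith
    refine ⟨sub_eq_zero.mp (norm_eq_zero.mp (pow_eq_zero_iff (two_ne_zero) |>.mp h5)), ?_⟩
    simp only
    linarith
  · intro y
    simp only [hS]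
    refine (norm_sum_le _ _).trans (Finset.sum_le_sum fun i _ => ?_)
    rw [norm_smul, Real.norm_eq_abs, abs_of_nonneg ((hlam y).1 i)]
    have : lam y i ≤ 1 := (mem_Icc_of_mem_stdSimplex (hlam y) i).2
    nlinarith [norm_nonneg (w i)]

end Pool.Agent.MP_979a03_an
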