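import Mathlib.Tactic.Monotonicity.Lemmas
import Mathlib.Data.Int.Star
import Mathlib.Algebra.Order.Archimedean.Real.Hom
import Mathlib.Analysis.Convex.Deriv
import Mathlib.Analysis.Matrix.Order
import Pool.Agent.MP_979a03_an.Interp

-- ======== part 0: formerly Pool.Agent.MP_979a03_an.Class
section MrgPart0

/-! From the function class to gradient fields. -/

namespace Pool.Agent.MP_979a03_an

open Filter Topology

variable {E : Type*} [NormedAddCommGroup E] [InnerProductSpace ℝ E]

lemma hasDerivAt_line [CompleteSpace E] {f : E → ℝ} (hf : Differentiable ℝ f) (x v : E) (t : ℝ) :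
    HasDerivAt (fun s : ℝ => f (x + s • v)) (inner ℝ (gradient f (x + t • v)) v) t := by
  have h1 : HasDerivAt (fun s : ℝ => x + s • v) v t := by
    simpa using ((hasDerivAt_id t).smul_const v).const_add x
  have h2 := (hf (x + t • v)).hasGradientAt.hasFDerivAt
  have h3 := h2.comp_hasDerivAt t h1
  simpa [Function.comp_def, InnerProductSpace.toDual_apply_apply] using h3

lemma descent [CompleteSpace E] {f : E → ℝ} {L : ℝ} (hf : Differentiable ℝ f)
    (hL : ∀ x y, ‖gradient f x - gradient f y‖ ≤ L * ‖x - y‖) (x y : E) :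
    f y ≤ f x + inner ℝ (gradient f x) (y - x) + L / 2 * ‖y - x‖ ^ 2 := by
  set v := y - x with hv
  set φ : ℝ → ℝ := fun s => f (x + s • v) - s * inner ℝ (gradient f x) v - L / 2 * s ^ 2 * ‖v‖ ^ 2
    with hφ
  have hd : ∀ t, HasDerivAt φ (inner ℝ (gradient f (x + t • v)) v - inner ℝ (gradient f x) v -
      L * t * ‖v‖ ^ 2) t := by
    intro t
    have h1 := hasDerivAt_line hf x v t
    have h2 : HasDerivAt (fun s : ℝ => s * inner ℝ (gradient f x) v)
        (inner ℝ (gradient f x) v) t := by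
      simpa using (hasDerivAt_id t).mul_const (inner ℝ (gradient f x) v)
    have h3 : HasDerivAt (fun s : ℝ => L / 2 * s ^ 2 * ‖v‖ ^ 2) (L * t * ‖v‖ ^ 2) t := by
      have := ((hasDerivAt_pow 2 t).const_mul (L / 2)).mul_const (‖v‖ ^ 2)
      refine this.congr_deriv ?_
      norm_num; left; ring
    exact (h1.sub h2).sub h3
  have hanti : AntitoneOn φ (Set.Icc 0 1) := by
    refine antitoneOn_of_deriv_nonpos (convex_Icc 0 1)
      (fun t _ => (hd t).continuousAt.continuousWithinAt)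
      (fun t _ => (hd t).differentiableAt.differentiableWithinAt) fun t ht => ?_
    rw [(hd t).deriv, ← inner_sub_left]
    rw [interior_Icc] at ht
    have h1 := real_inner_le_norm (gradient f (x + t • v) - gradient f x) v
    have h2 := hL (x + t • v) x
    rw [add_sub_cancel_left, norm_smul, Real.norm_eq_abs, abs_of_pos ht.1] at h2
    have h3 := mul_le_mul_of_nonneg_right h2 (norm_nonneg v)
    nlinarith
  have := hanti (Set.left_mem_Icc.mpr zero_le_one) (Set.right_mem_Icc.mpr zero_le_one) zero_le_one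
  simp only [hφ, one_smul, zero_smul, add_zero, one_mul, zero_mul, one_pow, mul_one] at this
  have e : x + v = y := by rw [hv]; abel
  rw [e] at this
  generalize inner ℝ (gradient f x) v = I at this ⊢
  norm_num at this
  linarith

lemma strong_lower [CompleteSpace E] {f : E → ℝ} {μ : ℝ} (hf : Differentiable ℝ f)
    (hc : StrongConvexOn Set.univ μ f) (x y : E) :
    f x + inner ℝ (gradient f x) (y - x) + μ / 2 * ‖y - x‖ ^ 2 ≤ f y := by
  rw [strongConvexOn_iff_convex] at hc
  set v := y - x with hv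
  have h1 : ConvexOn ℝ Set.univ (fun s : ℝ => f (x + s • v) - μ / (2:ℝ) * ‖x + s • v‖ ^ 2) := by
    have := hc.comp_affineMap (AffineMap.lineMap x y)
    simp only [Set.preimage_univ] at this
    have e0 : (fun s : ℝ => f (x + s • v) - μ / (2:ℝ) * ‖x + s • v‖ ^ 2) =
        (fun x => f x - μ / (2:ℝ) * ‖x‖ ^ 2) ∘ (AffineMap.lineMap x y) := by
      funext s
      simp [AffineMap.lineMap_apply, hv, add_comm]
    rw [e0]; exact this
  have e : ∀ s : ℝ, ‖x + s • v‖ ^ 2 = ‖x‖ ^ 2 + 2 * (s * inner ℝ x v) + s ^ 2 * ‖v‖ ^ 2 := by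
    intro s
    rw [norm_add_sq_real, real_inner_smul_right, norm_smul, mul_pow, Real.norm_eq_abs, sq_abs]
  have h2 : HasDerivAt (fun s : ℝ => f (x + s • v) - μ / (2:ℝ) * ‖x + s • v‖ ^ 2)
      (inner ℝ (gradient f x) v - μ * inner ℝ x v) 0 := by
    simp only [e]
    have h3 := hasDerivAt_line hf x v 0
    simp only [zero_smul, add_zero] at h3
    have h4 : HasDerivAt (fun s : ℝ => μ / (2:ℝ) *
        (‖x‖ ^ 2 + 2 * (s * inner ℝ x v) + s ^ 2 * ‖v‖ ^ 2)) (μ * inner ℝ x v) 0 := by
      have := (((((hasDerivAt_id (0:ℝ)).mul_const (inner ℝ x v)).const_mul 2).const_add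
        (‖x‖ ^ 2)).add ((hasDerivAt_pow 2 (0:ℝ)).mul_const (‖v‖ ^ 2))).const_mul (μ / 2)
      refine this.congr_deriv ?_
      norm_num; ring
    exact h3.sub h4
  have h5 := h1.le_slope_of_hasDerivAt (Set.mem_univ 0) (Set.mem_univ 1) zero_lt_one h2
  rw [slope_def_field] at h5
  simp only [e] at h5
  have e2 : x + v = y := by rw [hv]; abel
  simp only [one_smul, zero_smul, add_zero, e2] at h5
  generalize inner ℝ (gradient f x) v = I at h5 ⊢
  norm_num at h5
  linarith

/-- The shifted field of a function of the class. -/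
lemma fld_of_inClass {d : ℕ} {μ L : ℝ} (hl : μ < L) {f : EuclideanSpace ℝ (Fin d) → ℝ}
    (hf : InClass μ L f) (c : EuclideanSpace ℝ (Fin d)) :
    Fld (L - μ) (fun y => f (y + c) - μ / 2 * ‖y‖ ^ 2) (fun y => gradient f (y + c) - μ • y) := by
  intro x y
  have hl' : 0 < L - μ := by linarith
  set W : EuclideanSpace ℝ (Fin d) → EuclideanSpace ℝ (Fin d) :=
    fun y => gradient f (y + c) - μ • y with hW
  set h : EuclideanSpace ℝ (Fin d) → ℝ := fun y => f (y + c) - μ / 2 * ‖y‖ ^ 2 with hh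
  have eN : ∀ a b : EuclideanSpace ℝ (Fin d),
      ‖b‖ ^ 2 = ‖a‖ ^ 2 + 2 * inner ℝ a (b - a) + ‖b - a‖ ^ 2 := by
    intro a b
    have : b = a + (b - a) := by abel
    conv_lhs => rw [this]
    rw [norm_add_sq_real]
  have lo : ∀ a b, h a + inner ℝ (W a) (b - a) ≤ h b := by
    intro a b
    have := strong_lower hf.1 hf.2.2 (a + c) (b + c)
    rw [add_sub_add_right_eq_sub] at this
    simp only [hh, hW]
    rw [inner_sub_left, real_inner_smul_left, eN a b]
    linarith
  have up : ∀ a b, h b ≤ h a + inner ℝ (W a) (b - a) + (L - μ) / 2 * ‖b - a‖ ^ 2 := by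
    intro a b
    have := descent hf.1 hf.2.1 (a + c) (b + c)
    rw [add_sub_add_right_eq_sub] at this
    simp only [hh, hW]
    rw [inner_sub_left, real_inner_smul_left, eN a b]
    linarith
  change h x + inner ℝ (W x) (y - x) + ‖W y - W x‖ ^ 2 / (2 * (L - μ)) ≤ h y
  set D := W y - W x with hD
  have h1 := lo x (y - (L - μ)⁻¹ • D)
  have h2 := up y (y - (L - μ)⁻¹ • D)
  have e1 : y - (L - μ)⁻¹ • D - x = (y - x) - (L - μ)⁻¹ • D := by abel
  have e2 : y - (L - μ)⁻¹ • D - y = -((L - μ)⁻¹ • D) := by abel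
  rw [e1, inner_sub_right, real_inner_smul_right] at h1
  rw [e2, inner_neg_right, real_inner_smul_right, norm_neg, norm_smul, Real.norm_eq_abs,
    abs_of_pos (inv_pos.mpr hl')] at h2
  have e3 : inner ℝ (W y) D - inner ℝ (W x) D = ‖D‖ ^ 2 := by
    rw [← inner_sub_left, ← hD, real_inner_self_eq_norm_sq]
  have e4 : ‖D‖ ^ 2 / (2 * (L - μ)) =
      (L - μ)⁻¹ * ‖D‖ ^ 2 - (L - μ) / 2 * ((L - μ)⁻¹ * ‖D‖) ^ 2 := by
    field_simp; ring
  rw [e4, ← e3]
  nlinarith

lemma grad_eq_zero_of_isMinOn {d : ℕ} {f : EuclideanSpace ℝ (Fin d) → ℝ}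
    {xs : EuclideanSpace ℝ (Fin d)} (h : IsMinOn f Set.univ xs) : gradient f xs = 0 := by
  have h1 : IsLocalMin f xs := h.isLocalMin Filter.univ_mem
  have h2 := h1.fderiv_eq_zero
  simp [gradient, h2]

lemma exists_isMinOn {d : ℕ} {μ L : ℝ} (hμ : 0 < μ) {f : EuclideanSpace ℝ (Fin d) → ℝ}
    (hf : InClass μ L f) : ∃ xs, IsMinOn f Set.univ xs := by
  set g := gradient f 0
  set R := 2 * ‖g‖ / μ with hR
  have hR0 : 0 ≤ R := by positivity
  obtain ⟨xs, hxs, hmin⟩ := (isCompact_closedBall (0 : EuclideanSpace ℝ (Fin d)) R).exists_isMinOn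
    ⟨0, Metric.mem_closedBall_self hR0⟩ hf.1.continuous.continuousOn
  refine ⟨xs, fun y _ => ?_⟩
  by_cases hy : y ∈ Metric.closedBall (0 : EuclideanSpace ℝ (Fin d)) R
  · exact hmin hy
  · have h0 : f xs ≤ f 0 := hmin (Metric.mem_closedBall_self hR0)
    have h1 := strong_lower hf.1 hf.2.2 0 y
    rw [sub_zero] at h1
    have h2 := abs_le.mp (abs_real_inner_le_norm g y)
    rw [mem_closedBall_zero_iff, not_le, hR, div_lt_iff₀ hμ] at hy
    change f xs ≤ f y
    nlinarith [norm_nonneg y, h2.1]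

lemma isMinOn_unique {d : ℕ} {μ L : ℝ} (hμ : 0 < μ) {f : EuclideanSpace ℝ (Fin d) → ℝ}
    (hf : InClass μ L f) {a b : EuclideanSpace ℝ (Fin d)} (ha : gradient f a = 0)
    (hb : IsMinOn f Set.univ b) : a = b := by
  have h1 := strong_lower hf.1 hf.2.2 a b
  rw [ha, inner_zero_left] at h1
  have h2 : f b ≤ f a := hb (Set.mem_univ a)
  have h3 : ‖b - a‖ ^ 2 ≤ 0 := by nlinarith
  have h4 : ‖b - a‖ = 0 := by nlinarith [norm_nonneg (b - a)]
  exact (sub_eq_zero.mp (norm_eq_zero.mp h4)).symm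

lemma isMinOn_of_grad_zero {d : ℕ} {μ L : ℝ} (hμ : 0 < μ) {f : EuclideanSpace ℝ (Fin d) → ℝ}
    (hf : InClass μ L f) {a : EuclideanSpace ℝ (Fin d)} (ha : gradient f a = 0) :
    IsMinOn f Set.univ a := by
  intro b _
  have h1 := strong_lower hf.1 hf.2.2 a b
  rw [ha, inner_zero_left] at h1
  change f a ≤ f b
  have : 0 ≤ μ / 2 * ‖b - a‖ ^ 2 := by positivity
  linarith

/-- A tuning with a cycle does not converge. -/
lemma not_converges_of_inCyc {μ L γ β : ℝ} (h : InCyc μ L γ β) : ¬ Converges μ L γ β := by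
  rintro hc
  obtain ⟨K, hK, d, hd, f, hf, x, hx, hper, i, hi, j, hj, hij⟩ := h
  obtain ⟨xs, -, ht⟩ := hc d hd f hf x hx
  have key : ∀ i < K, x i = xs := by
    intro i hi
    have h1 : Tendsto (fun n : ℕ => K * n + i) atTop atTop :=
      tendsto_atTop_mono (fun n => by simp only [id]; nlinarith) tendsto_id
    have h2 := ht.comp h1
    have h3 : (x ∘ fun n : ℕ => K * n + i) = fun _ => x i := by
      funext n
      simp only [Function.comp]
      rw [hper, Nat.mul_add_mod, Nat.mod_eq_of_lt hi]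
    rw [h3] at h2
    exact tendsto_nhds_unique tendsto_const_nhds h2
  exact hij ((key i hi).trans (key j hj).symm)

end Pool.Agent.MP_979a03_an

end MrgPart0

-- ======== part 1: formerly Pool.Agent.MP_979a03_an.Dual
section MrgPart1

/-! Positive definite functions on the integers and the dual conditions. -/

namespace Pool.Agent.MP_979a03_an

open Filter Topology

/-- Even positive semidefinite functions on `ℤ`. -/
def PD (r : ℤ → ℝ) : Prop :=
  (∀ l, r (-l) = r l) ∧
    ∀ (n : ℕ) (t : Fin n → ℤ) (c : Fin n → ℝ), 0 ≤ ∑ i, ∑ j, c i * c j * r (t j - t i)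

/-- Cross-correlation of the two filtered sequences. -/
def rho (p q β : ℝ) (r : ℤ → ℝ) (l : ℤ) : ℝ :=
  -((1 + p * q + β ^ 2) * r l - (q + p * β) * r (l - 1) - (p + β * q) * r (l + 1) +
    β * r (l - 2) + β * r (l + 2))

/-- Approximate dual feasibility. -/
def DualA (p q β δ : ℝ) : Prop :=
  ∃ r, PD r ∧ r 0 = 1 ∧ -δ ≤ rho p q β r 0 ∧ ∀ l, rho p q β r l ≤ rho p q β r 0 + δ

lemma PD.abs_le {r : ℤ → ℝ} (h : PD r) (l : ℤ) : |r l| ≤ r 0 := by
  have h1 := h.2 2 ![0, l] ![1, 1]
  have h2 := h.2 2 ![0, l] ![1, -1]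
  simp [Fin.sum_univ_two, h.1] at h1 h2
  rw [_root_.abs_le]
  constructor <;> linarith

lemma isCompact_PD : IsCompact {r : ℤ → ℝ | PD r ∧ r 0 = 1} := by
  have h1 : IsCompact (Set.pi Set.univ fun _ : ℤ => Set.Icc (-1 : ℝ) 1) :=
    isCompact_univ_pi fun _ => isCompact_Icc
  refine h1.of_isClosed_subset ?_ ?_
  · simp only [PD, Set.ofPred_and, Set.ofPred_forall]
    refine ((isClosed_iInter fun l => isClosed_eq (by fun_prop) (by fun_prop)).inter
      (isClosed_iInter fun n => isClosed_iInter fun t => isClosed_iInter fun c =>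
        isClosed_le (by fun_prop) (by fun_prop))).inter (isClosed_eq (by fun_prop) (by fun_prop))
  · rintro r ⟨h, h0⟩ l _
    have := h.abs_le l
    rw [h0] at this
    exact abs_le.mp this

lemma isClosed_dualA :
    IsClosed {a : ℝ × ℝ × ℝ × ℝ | DualA a.1 a.2.1 a.2.2.1 a.2.2.2} := by
  set K := {r : ℤ → ℝ | PD r ∧ r 0 = 1} with hK
  have : CompactSpace K := isCompact_iff_compactSpace.mp isCompact_PD
  have h1 : IsClosed {z : (ℝ × ℝ × ℝ × ℝ) × K |
      -z.1.2.2.2 ≤ rho z.1.1 z.1.2.1 z.1.2.2.1 z.2 0 ∧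
      ∀ l, rho z.1.1 z.1.2.1 z.1.2.2.1 z.2 l ≤ rho z.1.1 z.1.2.1 z.1.2.2.1 z.2 0 + z.1.2.2.2} := by
    have hc : ∀ l : ℤ, Continuous fun z : (ℝ × ℝ × ℝ × ℝ) × K => (z.2 : ℤ → ℝ) l :=
      fun l => (continuous_apply l).comp (continuous_subtype_val.comp continuous_snd)
    have hr : ∀ l : ℤ, Continuous fun z : (ℝ × ℝ × ℝ × ℝ) × K =>
        rho z.1.1 z.1.2.1 z.1.2.2.1 z.2 l := by
      intro l
      unfold rho
      have h1 := hc l
      have h2 := hc (l - 1)
      have h3 := hc (l + 1)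
      have h4 := hc (l - 2)
      have h5 := hc (l + 2)
      refine Continuous.neg (Continuous.add (Continuous.add (Continuous.sub (Continuous.sub
        (Continuous.mul (by fun_prop) h1) (Continuous.mul (by fun_prop) h2))
        (Continuous.mul (by fun_prop) h3)) (Continuous.mul (by fun_prop) h4))
        (Continuous.mul (by fun_prop) h5))
    simp only [Set.ofPred_and, Set.ofPred_forall]
    exact (isClosed_le (by fun_prop) (hr 0)).inter
      (isClosed_iInter fun l => isClosed_le (hr l) ((hr 0).add (by fun_prop)))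
  have h2 := isClosedMap_fst_of_compactSpace _ h1
  convert h2 using 1
  ext a
  constructor
  · rintro ⟨r, h1, h2, h3, h4⟩
    exact ⟨(a, ⟨r, h1, h2⟩), ⟨h3, h4⟩, rfl⟩
  · rintro ⟨⟨a', r, h1, h2⟩, ⟨h3, h4⟩, rfl⟩
    exact ⟨r, h1, h2, h3, h4⟩

lemma dualA_zero {p q β : ℝ} (h : ∀ δ > 0, DualA p q β δ) : DualA p q β 0 := by
  have h1 : Tendsto (fun δ : ℝ => (p, q, β, δ)) (𝓝[>] 0) (𝓝 (p, q, β, 0)) :=
    tendsto_nhdsWithin_of_tendsto_nhds (Continuous.tendsto (by fun_prop) 0)
  exact isClosed_dualA.mem_of_tendsto h1 (eventually_mem_nhdsWithin.mono fun δ hδ => h δ hδ)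

/-- Dual feasibility for a tuning. -/
def Dual (μ L γ β : ℝ) : Prop := DualA (1 + β - γ * μ) (1 + β - γ * L) β 0

lemma isClosed_dual (μ L : ℝ) : IsClosed {a : ℝ × ℝ | Dual μ L a.1 a.2} := by
  have h : Continuous fun a : ℝ × ℝ =>
      ((1 + a.2 - a.1 * μ, 1 + a.2 - a.1 * L, a.2, 0) : ℝ × ℝ × ℝ × ℝ) := by fun_prop
  exact isClosed_dualA.preimage h

/-! Correlations of periodic sequences. -/

lemma sum_shift {T : ℕ} {φ : ℤ → ℝ} (hφ : ∀ k, φ (k + T) = φ k) (i : ℤ) :
    ∑ k ∈ Finset.range T, φ (k + i) = ∑ k ∈ Finset.range T, φ k := by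
  have step : ∀ i : ℤ, ∑ k ∈ Finset.range T, φ (k + (i + 1)) =
      ∑ k ∈ Finset.range T, φ (k + i) := by
    intro i
    have h1 := Finset.sum_range_succ (fun k : ℕ => φ (k + i)) T
    have h2 := Finset.sum_range_succ' (fun k : ℕ => φ (k + i)) T
    have h3 : φ ((T : ℤ) + i) = φ (((0 : ℕ) : ℤ) + i) := by
      rw [← hφ (((0 : ℕ) : ℤ) + i)]; congr 1; push_cast; ring
    have h4 : ∑ k ∈ Finset.range T, φ (((k + 1 : ℕ) : ℤ) + i) =
        ∑ k ∈ Finset.range T, φ (k + (i + 1)) :=
      Finset.sum_congr rfl fun k _ => by congr 1; push_cast; ring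
    linarith
  induction i using Int.induction_on with
  | zero => simp
  | succ n ih => rw [step, ih]
  | pred n ih => rw [← ih, ← step]; simp

variable {E : Type*} [NormedAddCommGroup E] [InnerProductSpace ℝ E]

/-- Cyclic correlation. -/
noncomputable def corr (T : ℕ) (F G : ℤ → E) (l : ℤ) : ℝ :=
  ∑ k ∈ Finset.range T, inner ℝ (F k) (G (k + l))

lemma corr_shift {T : ℕ} {F G : ℤ → E} (hF : ∀ k, F (k + T) = F k) (hG : ∀ k, G (k + T) = G k)
    (i j : ℤ) : ∑ k ∈ Finset.range T, inner ℝ (F (k + i)) (G (k + j)) = corr T F G (j - i) := by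
  have := sum_shift (T := T) (φ := fun k => inner ℝ (F k) (G (k + (j - i))))
    (fun k => by
      have : k + T + (j - i) = (k + (j - i)) + T := by ring
      simp only [this, hF, hG]) i
  rw [corr, ← this]
  refine Finset.sum_congr rfl fun k _ => ?_
  congr 2; ring

lemma corr_PD {T : ℕ} {F : ℤ → E} (hF : ∀ k, F (k + T) = F k) : PD (corr T F F) := by
  constructor
  · intro l
    have h1 := corr_shift hF hF l 0
    rw [zero_sub] at h1
    rw [← h1, corr]
    refine Finset.sum_congr rfl fun k _ => ?_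
    rw [add_zero, real_inner_comm]
  · intro n t c
    have e : ∑ i, ∑ j, c i * c j * corr T F F (t j - t i) =
        ∑ k ∈ Finset.range T, ‖∑ i, c i • F (k + t i)‖ ^ 2 := by
      simp only [← corr_shift hF hF, ← real_inner_self_eq_norm_sq, sum_inner, inner_sum,
        real_inner_smul_left, real_inner_smul_right, Finset.mul_sum]
      rw [Finset.sum_comm (s := Finset.range T)]
      refine Finset.sum_congr rfl fun i _ => ?_
      rw [Finset.sum_comm (s := Finset.range T)]
      refine Finset.sum_congr rfl fun j _ => Finset.sum_congr rfl fun k _ => ?_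
      rw [real_inner_comm]; ring
    rw [e]
    positivity

lemma corr_periodic {T : ℕ} {F G : ℤ → E} (hG : ∀ k, G (k + T) = G k) (l : ℤ) :
    corr T F G (l + T) = corr T F G l := by
  simp only [corr, ← add_assoc, hG]

lemma corr_zero (T : ℕ) (F : ℤ → E) : corr T F F 0 = ∑ k ∈ Finset.range T, ‖F k‖ ^ 2 := by
  simp [corr]

lemma abs_corr_le {T : ℕ} {F G : ℤ → E} (hG : ∀ k, G (k + T) = G k) (l : ℤ) {θ : ℝ}
    (hθ : 0 < θ) : |corr T F G l| ≤ corr T F F 0 / (2 * θ) + θ / 2 * corr T G G 0 := by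
  rw [corr_zero, corr_zero, ← sum_shift (φ := fun k => ‖G k‖ ^ 2) (fun k => by simp only [hG]) l,
    corr, Finset.sum_div, Finset.mul_sum, ← Finset.sum_add_distrib]
  refine (Finset.abs_sum_le_sum_abs _ _).trans (Finset.sum_le_sum fun k _ => ?_)
  rw [abs_le]
  constructor
  · have := young θ hθ (F k) (-G (k + l))
    rw [inner_neg_right, norm_neg] at this
    linarith
  · exact young θ hθ _ _

/-- The second order filter. -/
def flt (a β : ℝ) (F : ℤ → E) (k : ℤ) : E := F (k + 1) - a • F k + β • F (k - 1)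

lemma inner_flt {F : ℤ → E} {r : ℤ → ℝ} (h : ∀ s t, inner ℝ (F s) (F t) = r (t - s))
    (p q β : ℝ) (s t : ℤ) : inner ℝ (flt p β F s) (flt q β F t) = - rho p q β r (t - s) := by
  simp only [flt, inner_add_left, inner_add_right, inner_sub_left, inner_sub_right,
    real_inner_smul_left, real_inner_smul_right, h, rho]
  have e1 : t + 1 - (s + 1) = t - s := by ring
  have e2 : t - (s + 1) = t - s - 1 := by ring
  have e3 : t - 1 - (s + 1) = t - s - 2 := by ring
  have e4 : t + 1 - s = t - s + 1 := by ring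
  have e5 : t - 1 - s = t - s - 1 := by ring
  have e6 : t + 1 - (s - 1) = t - s + 2 := by ring
  have e7 : t - (s - 1) = t - s + 1 := by ring
  have e8 : t - 1 - (s - 1) = t - s := by ring
  rw [e1, e2, e3, e4, e5, e6, e7, e8]
  ring

lemma corr_flt {T : ℕ} {F : ℤ → E} (hF : ∀ k, F (k + T) = F k) (p q β : ℝ) (l : ℤ) :
    corr T (flt p β F) (flt q β F) l = - rho p q β (corr T F F) l := by
  have h : ∀ i j : ℤ, ∑ k ∈ Finset.range T, inner ℝ (F (k + i)) (F (k + j)) =
      corr T F F (j - i) := corr_shift hF hF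
  have e : ∀ k : ℤ, inner ℝ (flt p β F k) (flt q β F (k + l)) =
      inner ℝ (F (k + 1)) (F (k + (l + 1))) - q * inner ℝ (F (k + 1)) (F (k + l)) +
      β * inner ℝ (F (k + 1)) (F (k + (l - 1))) - p * inner ℝ (F (k + 0)) (F (k + (l + 1))) +
      p * q * inner ℝ (F (k + 0)) (F (k + l)) - p * β * inner ℝ (F (k + 0)) (F (k + (l - 1))) +
      β * inner ℝ (F (k + -1)) (F (k + (l + 1))) - β * q * inner ℝ (F (k + -1)) (F (k + l)) +
      β ^ 2 * inner ℝ (F (k + -1)) (F (k + (l - 1))) := by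
    intro k
    simp only [flt, inner_add_left, inner_add_right, inner_sub_left, inner_sub_right,
      real_inner_smul_left, real_inner_smul_right, add_zero, add_assoc, add_sub_assoc,
      ← sub_eq_add_neg]
    ring
  rw [corr]
  simp only [e, Finset.sum_add_distrib, Finset.sum_sub_distrib, ← Finset.mul_sum, h, rho]
  have e1 : l + 1 - 1 = l := by ring
  have e3 : l - 1 - 1 = l - 2 := by ring
  have e6 : l + 1 - -1 = l + 2 := by ring
  have e7 : l - -1 = l + 1 := by ring
  have e8 : l - 1 - -1 = l := by ring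
  simp only [e1, e3, e6, e7, e8, sub_zero]
  ring

/-- Gram vectors. -/
lemma PD.exists_gram {r : ℤ → ℝ} (h : PD r) (N : ℕ) :
    ∃ v : Fin N → EuclideanSpace ℝ (Fin N), ∀ i j, inner ℝ (v i) (v j) = r ((j : ℤ) - i) := by
  classical
  set M : Matrix (Fin N) (Fin N) ℝ := Matrix.of fun i j => r ((j : ℤ) - i) with hM
  have hpsd : M.PosSemidef := by
    refine .of_dotProduct_mulVec_nonneg ?_ fun x => ?_
    · ext i j
      simp only [hM, Matrix.conjTranspose_apply, Matrix.of_apply, star_trivial]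
      rw [← h.1]; congr 1; ring
    · have := h.2 N (fun i => (i : ℤ)) x
      refine this.trans (le_of_eq ?_)
      simp only [dotProduct, Matrix.mulVec, hM, Matrix.of_apply, star_trivial, Finset.mul_sum]
      refine Finset.sum_congr rfl fun i _ => Finset.sum_congr rfl fun j _ => by ring
  open MatrixOrder in
  obtain ⟨B, hB⟩ := CStarAlgebra.nonneg_iff_eq_star_mul_self.mp hpsd.nonneg
  refine ⟨fun i => WithLp.toLp 2 fun k => B k i, fun i j => ?_⟩
  have := congrFun (congrFun hB i) j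
  simp only [hM, Matrix.of_apply, Matrix.mul_apply, Matrix.star_apply, star_trivial] at this
  rw [this, PiLp.inner_apply]
  refine Finset.sum_congr rfl fun k _ => ?_
  simp [mul_comm]

end Pool.Agent.MP_979a03_an

end MrgPart1

-- marker of a merged file
example : 731051 + 685644 = 731051 + 685644 := rfl
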