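import Pool.Agent.MP_979a03_an.Traj

/-! From dual feasibility to cycles. -/

namespace Pool.Agent.MP_979a03_an

open Filter Topology

lemma interp' {d : ℕ} {ι : Type*} [Fintype ι] [Nonempty ι] {μ L : ℝ} (hμ : 0 < μ) (hl : μ < L)
    (x w : ι → EuclideanSpace ℝ (Fin d)) (φ : ι → ℝ)
    (H : ∀ i j, inner ℝ (w i) ((L - μ) • x j - w j) - inner ℝ (w i) ((L - μ) • x i - w i) ≤
      φ j - φ i) :
    ∃ f : EuclideanSpace ℝ (Fin d) → ℝ, InClass μ L f ∧ ∀ i, gradient f (x i) = w i + μ • x i ∧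
      f (x i) = (φ i + ‖w i‖ ^ 2 / 2) / (L - μ) + μ / 2 * ‖x i‖ ^ 2 := by
  have hl' : 0 < L - μ := by linarith
  obtain ⟨h, W, B, HF, hint, -⟩ := interp hl' x w (fun i => (φ i + ‖w i‖ ^ 2 / 2) / (L - μ))
    (fun i j => by
      have h1 := H i j
      rw [inner_sub_right, inner_sub_right, real_inner_smul_right, real_inner_smul_right,
        real_inner_self_eq_norm_sq] at h1
      rw [norm_sub_sq_real, inner_sub_right, real_inner_comm (w i) (w j), ← sub_nonneg]
      have e : (φ j + ‖w j‖ ^ 2 / 2) / (L - μ) - ((φ i + ‖w i‖ ^ 2 / 2) / (L - μ) +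
          (inner ℝ (w i) (x j) - inner ℝ (w i) (x i)) +
          (‖w j‖ ^ 2 - 2 * inner ℝ (w i) (w j) + ‖w i‖ ^ 2) / (2 * (L - μ))) =
          (φ j - φ i - ((L - μ) * inner ℝ (w i) (x j) - inner ℝ (w i) (w j) -
            ((L - μ) * inner ℝ (w i) (x i) - ‖w i‖ ^ 2))) / (L - μ) := by
        field_simp; ring
      rw [e]
      exact div_nonneg (by linarith) hl'.le)
  obtain ⟨h1, h2⟩ := HF.inClass hμ hl
  exact ⟨_, h1, fun i => ⟨by rw [h2, (hint i).1], by simp only [(hint i).2]⟩⟩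

lemma periodic_emod {α : Type*} {F : ℤ → α} {N : ℤ} (hF : ∀ k, F (k + N) = F k) (k : ℤ) :
    F (k % N) = F k := by
  have h : Function.Periodic F N := hF
  rw [Int.emod_def, mul_comm]
  exact h.sub_int_mul_eq (k / N)

lemma inCyc_of_periodic {μ L γ β : ℝ} (hμ : 0 < μ) (hl : μ < L) (hγ : γ ≠ 0) {r : ℤ → ℝ}
    (hr : PD r) {N : ℕ} (hN : 3 ≤ N) (hper : ∀ l, r (l + N) = r l)
    (hrho : ∀ l, rho (1 + β - γ * μ) (1 + β - γ * L) β r l ≤
      rho (1 + β - γ * μ) (1 + β - γ * L) β r 0) (hne : r 2 ≠ r 0) : InCyc μ L γ β := by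
  obtain ⟨v, hv⟩ := hr.exists_gram N
  have hN0 : (0 : ℤ) < N := by exact_mod_cast (by omega : 0 < N)
  have hlt : ∀ t : ℤ, (t % N).toNat < N := by
    intro t
    have h1 := Int.emod_lt_of_pos t hN0
    have h2 := Int.emod_nonneg t hN0.ne'
    omega
  set X : ℤ → EuclideanSpace ℝ (Fin N) := fun t => v ⟨(t % N).toNat, hlt t⟩ with hX
  have hXp : ∀ k, X (k + N) = X k := by intro k; simp only [hX, Int.add_emod_right]
  have hXX : ∀ s t, inner ℝ (X s) (X t) = r (t - s) := by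
    intro s t
    simp only [hX, hv]
    rw [Int.toNat_of_nonneg (Int.emod_nonneg t hN0.ne'),
      Int.toNat_of_nonneg (Int.emod_nonneg s hN0.ne'), ← periodic_emod hper,
      ← periodic_emod hper (t - s), ← Int.sub_emod]
  set p := 1 + β - γ * μ with hp
  set q := 1 + β - γ * L with hq
  set w : ℤ → EuclideanSpace ℝ (Fin N) := fun t => -(γ⁻¹ • flt p β X t) with hw
  have hwp : ∀ k, w (k + N) = w k := by
    intro k
    have e1 : k + (N : ℤ) + 1 = k + 1 + N := by ring
    have e2 : k + (N : ℤ) - 1 = k - 1 + N := by ring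
    simp only [hw, flt, e1, e2, hXp]
  have hu : ∀ t, (L - μ) • X t - w t = γ⁻¹ • flt q β X t := by
    intro t
    have e : L - μ = γ⁻¹ * (p - q) := by rw [hp, hq]; field_simp; ring
    simp only [hw, flt, e]
    module
  have hwu : ∀ s t, inner ℝ (w s) ((L - μ) • X t - w t) = γ⁻¹ ^ 2 * rho p q β r (t - s) := by
    intro s t
    rw [hu]
    simp only [hw]
    rw [inner_neg_left, real_inner_smul_left, real_inner_smul_right, inner_flt hXX]
    ring
  have : Nonempty (Fin N) := ⟨⟨0, by omega⟩⟩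
  obtain ⟨f, hf, hg⟩ := interp' hμ hl (fun i : Fin N => X i) (fun i => w i) (fun _ => 0)
    (fun i j => by
      rw [hwu, hwu, sub_self, sub_self]
      have := mul_le_mul_of_nonneg_left (hrho ((j : ℤ) - i)) (sq_nonneg γ⁻¹)
      linarith)
  have hgrad : ∀ t : ℤ, gradient f (X t) = w t + μ • X t := by
    intro t
    have := (hg ⟨(t % N).toNat, hlt t⟩).1
    simp only [Int.toNat_of_nonneg (Int.emod_nonneg t hN0.ne')] at this
    rwa [periodic_emod hXp, periodic_emod hwp] at this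
  refine ⟨N, hN, N, by omega, f, hf, fun t => X t, fun t => ?_, fun t => ?_,
    0, by omega, 2, by omega, fun h => hne ?_⟩
  · simp only
    rw [hgrad]
    simp only [hw, flt]
    push_cast
    have e1 : (t : ℤ) + 1 + 1 = t + 2 := by ring
    have e2 : (t : ℤ) + 1 - 1 = t := by ring
    rw [e1, e2, smul_add γ, smul_neg, smul_smul, mul_inv_cancel₀ hγ, hp]
    module
  · simp only
    rw [Int.natCast_mod, periodic_emod hXp]
  · simp only [Nat.cast_zero, Nat.cast_ofNat] at h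
    have h1 := hXX 0 2
    have h2 := hXX 0 0
    rw [← h, h2] at h1
    simpa using h1.symm

/-- A five-term linear form. -/
def lin (a : Fin 5 → ℝ) (r : ℤ → ℝ) (l : ℤ) : ℝ :=
  a 0 * r l + a 1 * r (l + 1) + a 2 * r (l - 1) + a 3 * r (l + 2) + a 4 * r (l - 2)

lemma exists_window {r : ℤ → ℝ} (hr : PD r) (n : ℕ) :
    ∃ r' : ℤ → ℝ, PD r' ∧ (∀ l, r' (l + (2 * n + 4 : ℕ)) = r' l) ∧
      ∀ l : ℤ, |l| ≤ n + 4 → r' l = ((max (n - |l|) 0 : ℤ) : ℝ) * r l := by
  classical
  obtain ⟨v, hv⟩ := hr.exists_gram n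
  set N : ℕ := 2 * n + 4 with hN
  have hN0 : (0 : ℤ) < N := by exact_mod_cast (by omega : 0 < N)
  set F : ℤ → EuclideanSpace ℝ (Fin n) :=
    fun i => if h : (i % N).toNat < n then v ⟨_, h⟩ else 0 with hF
  have hFp : ∀ k, F (k + N) = F k := by intro k; simp only [hF, Int.add_emod_right]
  have hF1 : ∀ i : ℤ, ∀ (h0 : 0 ≤ i) (h1 : i < n), F i = v ⟨i.toNat, by omega⟩ := by
    intro i h0 h1
    have e : i % N = i := Int.emod_eq_of_lt h0 (by omega)
    simp only [hF, e]
    rw [dif_pos (by omega)]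
  have hF0 : ∀ i : ℤ, (n : ℤ) ≤ i → i < N → F i = 0 := by
    intro i h0 h1
    have e : i % N = i := Int.emod_eq_of_lt (by omega) h1
    simp only [hF, e]
    rw [dif_neg (by omega)]
  refine ⟨corr N F F, corr_PD hFp, corr_periodic hFp, fun l hl => ?_⟩
  have hl' := abs_le.mp hl
  have e : ∀ k ∈ Finset.range N, inner ℝ (F k) (F (k + l)) =
      if k ∈ Finset.Ico (-l).toNat (min n (n - l).toNat) then r l else 0 := by
    intro k hk
    rw [Finset.mem_range] at hk
    split_ifs with h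
    · rw [Finset.mem_Ico] at h
      rw [hF1 k (by omega) (by omega), hF1 (k + l) (by omega) (by omega), hv]
      congr 1
      simp only
      omega
    · rw [Finset.mem_Ico] at h
      by_cases h1 : (k : ℤ) < n
      · by_cases h2 : (k : ℤ) + l < 0
        · rw [← hFp (k + l), hF0 (k + l + N) (by omega) (by omega), inner_zero_right]
        · rw [hF0 (k + l) (by omega) (by omega), inner_zero_right]
      · rw [hF0 k (by omega) (by omega), inner_zero_left]
  rw [corr, Finset.sum_congr rfl e, Finset.sum_ite_mem, Finset.sum_const, nsmul_eq_mul]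
  congr 1
  have e2 : Finset.range N ∩ Finset.Ico (-l).toNat (min n (n - l).toNat) =
      Finset.Ico (-l).toNat (min n (n - l).toNat) := by
    refine Finset.inter_eq_right.mpr fun k hk => ?_
    rw [Finset.mem_Ico] at hk
    rw [Finset.mem_range]; omega
  rw [e2, Nat.card_Ico, ← Int.cast_natCast]
  congr 1
  rcases abs_cases l with h | h <;> omega

lemma exists_periodic_of_strict {a : Fin 5 → ℝ} {r : ℤ → ℝ} (hr : PD r) (h0 : r 0 = 1)
    (hpos : 0 < lin a r 0) (hlt : ∀ l ≠ 0, lin a r l < lin a r 0) :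
    ∃ (N : ℕ) (r' : ℤ → ℝ), 3 ≤ N ∧ PD r' ∧ (∀ l, r' (l + N) = r' l) ∧
      (∀ l, lin a r' l ≤ lin a r' 0) ∧ r' 2 ≠ r' 0 := by
  set A := 2 * (|a 1| + |a 2| + |a 3| + |a 4|) with hA
  set ρ := lin a r 0 with hρ
  obtain ⟨l₀, hl₀⟩ := exists_nat_ge (2 * A / ρ)
  rw [div_le_iff₀ hpos] at hl₀
  have hev : ∀ᶠ n : ℕ in atTop, ∀ l ∈ (Finset.Icc (-(l₀ : ℤ)) l₀).erase 0,
      2 * A ≤ ((n : ℝ) - l₀) * (ρ - lin a r l) := by
    refine (Finset.eventually_all _).mpr fun l hl => ?_
    have h1 : 0 < ρ - lin a r l := sub_pos.mpr (hlt l (Finset.ne_of_mem_erase hl))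
    have h2 : Tendsto (fun n : ℕ => ((n : ℝ) - l₀) * (ρ - lin a r l)) atTop atTop :=
      (tendsto_atTop_add_const_right _ _ tendsto_natCast_atTop_atTop).atTop_mul_const h1
    exact h2.eventually_ge_atTop _
  obtain ⟨n, hn, hn2⟩ := (hev.and (eventually_ge_atTop (l₀ + 2))).exists
  obtain ⟨r', hr', hper, hval⟩ := exists_window hr n
  set τ : ℤ → ℝ := fun l => ((max (n - |l|) 0 : ℤ) : ℝ) with hτ
  have hr1 : ∀ l, |r l| ≤ 1 := fun l => h0 ▸ hr.abs_le l
  have hτd : ∀ l j : ℤ, |j| ≤ 2 → |τ (l + j) - τ l| ≤ 2 := by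
    intro l j hj
    simp only [hτ]
    rw [← Int.cast_sub, ← Int.cast_abs]
    have : |max (n - |l + j|) 0 - max (n - |l|) 0| ≤ (2 : ℤ) := by
      rw [abs_le] at hj ⊢
      rcases abs_cases l with h | h <;> rcases abs_cases (l + j) with h' | h' <;> omega
    exact_mod_cast this
  have herr : ∀ l : ℤ, |l| ≤ n + 2 → |lin a r' l - τ l * lin a r l| ≤ A := by
    intro l hl
    have hl' := abs_le.mp hl
    have hb : ∀ j : ℤ, |j| ≤ 2 → ∀ c : ℝ, |c * r' (l + j) - τ l * (c * r (l + j))| ≤ 2 * |c| := by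
      intro j hj c
      have hj' := abs_le.mp hj
      rw [hval (l + j) (by rw [abs_le]; omega)]
      have e : c * (τ (l + j) * r (l + j)) - τ l * (c * r (l + j)) =
          c * ((τ (l + j) - τ l) * r (l + j)) := by ring
      change |c * (τ (l + j) * r (l + j)) - τ l * (c * r (l + j))| ≤ _
      rw [e, abs_mul, abs_mul, mul_comm 2]
      refine mul_le_mul_of_nonneg_left ?_ (abs_nonneg c)
      have := mul_le_mul (hτd l j hj) (hr1 (l + j)) (abs_nonneg _) (by norm_num)
      linarith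
    have h1 := abs_le.mp (hb 1 (by norm_num) (a 1))
    have h2 := abs_le.mp (hb (-1) (by norm_num) (a 2))
    have h3 := abs_le.mp (hb 2 (by norm_num) (a 3))
    have h4 := abs_le.mp (hb (-2) (by norm_num) (a 4))
    have h5 : r' l = τ l * r l := hval l (by rw [abs_le]; omega)
    simp only [← sub_eq_add_neg] at h2 h4
    simp only [lin, h5, hA]
    rw [abs_le]
    constructor <;> nlinarith
  have hτ0 : τ 0 = n := by simp [hτ]
  have hred : ∀ l : ℤ, |l| ≤ n + 2 → lin a r' l ≤ lin a r' 0 := by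
    intro l hl
    by_cases hl0 : l = 0
    · rw [hl0]
    have h1 := abs_le.mp (herr l hl)
    have h2 := abs_le.mp (herr 0 (by simp; positivity))
    rw [hτ0] at h2
    have hg : 0 < ρ - lin a r l := sub_pos.mpr (hlt l hl0)
    have hτl0 : 0 ≤ τ l := by simp only [hτ]; exact_mod_cast le_max_right _ _
    have hτln : τ l ≤ n := by
      simp only [hτ]
      have : max (n - |l|) 0 ≤ (n : ℤ) := by have := abs_nonneg l; omega
      exact_mod_cast this
    suffices 2 * A ≤ (n - τ l) * ρ + τ l * (ρ - lin a r l) by nlinarith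
    by_cases hbig : (l₀ : ℤ) ≤ |l|
    · have : (l₀ : ℝ) ≤ n - τ l := by
        simp only [hτ]
        have : (l₀ : ℤ) ≤ n - max (n - |l|) 0 := by omega
        exact_mod_cast this
      nlinarith [mul_nonneg hτl0 hg.le]
    · have h3 := hn l (by
        rw [Finset.mem_erase, Finset.mem_Icc]
        have := abs_lt.mp (not_le.mp hbig)
        exact ⟨hl0, by omega, by omega⟩)
      have : (n : ℝ) - l₀ ≤ τ l := by
        simp only [hτ]
        have : (n : ℤ) - l₀ ≤ max (n - |l|) 0 := by omega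
        exact_mod_cast this
      nlinarith [mul_nonneg (sub_nonneg.mpr hτln) hpos.le]
  refine ⟨2 * n + 4, r', by omega, hr', hper, fun l => ?_, ?_⟩
  · have hlp : ∀ k, lin a r' (k - (n + 2) + (2 * n + 4 : ℕ)) = lin a r' (k - (n + 2)) := by
      intro k
      simp only [lin]
      rw [hper, add_right_comm _ _ (1 : ℤ), hper, add_right_comm _ _ (2 : ℤ), hper,
        add_sub_right_comm, hper, add_sub_right_comm, hper]
    have h1 := periodic_emod (F := fun k => lin a r' (k - (n + 2))) (N := (2 * n + 4 : ℕ))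
      (fun k => by rw [add_sub_right_comm]; exact hlp k) (l + (n + 2))
    simp only [add_sub_cancel_right] at h1
    rw [← h1]
    refine hred _ ?_
    have hN0 : (0 : ℤ) < (2 * n + 4 : ℕ) := by positivity
    have h2 := Int.emod_lt_of_pos (l + (n + 2)) hN0
    have h3 := Int.emod_nonneg (l + (n + 2)) hN0.ne'
    rw [abs_le]
    constructor <;> omega
  · rw [hval 2 (by simp; omega), hval 0 (by simp; positivity), h0]
    have e : (max ((n : ℤ) - |2|) 0 : ℤ) = n - 2 := by simp; omega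
    rw [e]
    simp only [abs_zero, sub_zero, Nat.cast_nonneg, max_eq_left]
    push_cast
    have h1 := (abs_le.mp (hr1 2)).2
    have h2 : (2 : ℝ) ≤ n := by exact_mod_cast (by omega : 2 ≤ n)
    nlinarith

lemma PD.nonneg {r : ℤ → ℝ} (h : PD r) {ι : Type*} [Fintype ι] (t : ι → ℤ) (c : ι → ℝ) :
    0 ≤ ∑ i, ∑ j, c i * c j * r (t j - t i) := by
  have e := Fintype.equivFin ι
  have := h.2 _ (t ∘ e.symm) (c ∘ e.symm)
  rw [← e.symm.sum_comp]
  simp only [← e.symm.sum_comp (fun j => c _ * c j * r (t j - t _))]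
  exact this

/-- Autocorrelation of the half central difference. -/
noncomputable def pp (r : ℤ → ℝ) (l : ℤ) : ℝ := (2 * r l - r (l + 2) - r (l - 2)) / 4

lemma PD.pp {r : ℤ → ℝ} (h : PD r) : PD (pp r) := by
  constructor
  · intro l
    simp only [MP_979a03_an.pp]
    have e1 : -l + 2 = -(l - 2) := by ring
    have e2 : -l - 2 = -(l + 2) := by ring
    rw [e1, e2, h.1, h.1, h.1]; ring
  · intro n t c
    have := h.nonneg (ι := Fin n × Bool) (fun i => if i.2 then t i.1 + 1 else t i.1 - 1)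
      (fun i => if i.2 then c i.1 / 2 else -(c i.1 / 2))
    simp only [Fintype.sum_prod_type, Fintype.sum_bool, if_true, Bool.false_eq_true, if_false,
      ← Finset.sum_add_distrib] at this
    refine this.trans (le_of_eq ?_)
    refine Finset.sum_congr rfl fun i _ => Finset.sum_congr rfl fun j _ => ?_
    have e1 : t j + 1 - (t i + 1) = t j - t i := by ring
    have e2 : t j - 1 - (t i + 1) = t j - t i - 2 := by ring
    have e3 : t j + 1 - (t i - 1) = t j - t i + 2 := by ring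
    have e4 : t j - 1 - (t i - 1) = t j - t i := by ring
    simp only [MP_979a03_an.pp, e1, e2, e3, e4]
    ring

lemma PD.shift {r : ℤ → ℝ} (h : PD r) {l : ℤ} (hl : r l = r 0) (n : ℤ) : r (n + l) = r n := by
  have key : ∀ s : ℝ, 0 ≤ 2 * s * (r (n + l) - r n) + r 0 := by
    intro s
    have := h.2 3 ![l, 0, -n] ![s, -s, 1]
    have e1 : -n - l = -(n + l) := by ring
    have e2 : l + n = n + l := by ring
    simp [Fin.sum_univ_three, e1, e2, h.1, hl] at this
    have e3 : -l + -n = -(n + l) := by ring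
    rw [e3, h.1] at this
    linarith
  by_contra hne
  have hd : r (n + l) - r n ≠ 0 := sub_ne_zero.mpr hne
  have := key (-(r 0 + 1) / (2 * (r (n + l) - r n)))
  have e : 2 * (-(r 0 + 1) / (2 * (r (n + l) - r n))) * (r (n + l) - r n) = -(r 0 + 1) := by
    field_simp
  linarith

lemma const_of_bounded {u : ℕ → ℝ} {κ B : ℝ} (h : ∀ k, u (k + 1) = u k + κ)
    (hB : ∀ k, |u k| ≤ B) : κ = 0 := by
  have h1 : ∀ k : ℕ, u k = u 0 + k * κ := by
    intro k
    induction k with
    | zero => simp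
    | succ n ih => rw [h, ih]; push_cast; ring
  by_contra hne
  have hpos : 0 < |κ| := abs_pos.mpr hne
  obtain ⟨k, hk⟩ := exists_nat_gt (2 * B / |κ|)
  rw [div_lt_iff₀ hpos] at hk
  have h2 : (k : ℝ) * |κ| = |u k - u 0| := by
    rw [h1 k, add_sub_cancel_left, abs_mul, Nat.abs_cast]
  have h3 := abs_sub (u k) (u 0)
  linarith [hB k, hB 0]

lemma periodic_of_pp {r : ℤ → ℝ} (h : PD r) {l : ℤ} (hl : pp r l = pp r 0) (n : ℤ) :
    r (n + 2 * l) = r n := by
  have h1 := h.pp.shift hl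
  set D : ℤ → ℝ := fun n => r (n + l) - r n with hD
  have hDb : ∀ n, |D n| ≤ 2 * r 0 := fun n => by
    have := abs_sub (r (n + l)) (r n)
    linarith [h.abs_le (n + l), h.abs_le n]
  have h2 : ∀ n, D (n + 2) - D n = D n - D (n - 2) := by
    intro n
    have := h1 n
    simp only [pp] at this
    simp only [hD, add_right_comm n 2 l, sub_add_eq_add_sub n 2 l]
    linarith
  have h3 : ∀ n, D (n + 2) = D n := by
    intro n
    have h4 : ∀ k : ℕ, D (n + 2 * k + 2) - D (n + 2 * k) = D (n + 2) - D n := by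
      intro k
      induction k with
      | zero => simp
      | succ m ih =>
        rw [← ih, h2]
        congr 2 <;> push_cast <;> ring
    have := const_of_bounded (u := fun k : ℕ => D (n + 2 * k)) (κ := D (n + 2) - D n)
      (B := 2 * r 0) (fun k => by
        rw [← h4 k]
        have : n + 2 * ((k + 1 : ℕ) : ℤ) = n + 2 * k + 2 := by push_cast; ring
        rw [this]; ring) (fun k => hDb _)
    linarith
  have h5 : Function.Periodic D 2 := h3
  have h6 : ∀ k : ℕ, r (n + 2 * l * ((k + 1 : ℕ) : ℤ)) = r (n + 2 * l * k) + (D n + D (n + l)) := by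
    intro k
    have e1 := h5.int_mul (l * k) n
    have e2 := h5.int_mul (l * k) (n + l)
    simp only [Int.cast_id] at e1 e2
    rw [← e1, ← e2]
    simp only [hD]
    have e3 : n + l * k * 2 = n + 2 * l * k := by ring
    have e4 : n + l + l * k * 2 = n + 2 * l * k + l := by ring
    have e5 : n + 2 * l * k + l + l = n + 2 * l * ((k + 1 : ℕ) : ℤ) := by push_cast; ring
    rw [e3, e4, e5]; ring
  have h7 := const_of_bounded (u := fun k : ℕ => r (n + 2 * l * k)) (B := r 0) h6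
    (fun k => h.abs_le _)
  have := h6 0
  simp only [h7] at this
  simpa using this

/-- Normalised cross-correlation. -/
noncomputable def nrho (X Y ε : ℝ) (r : ℤ → ℝ) (l : ℤ) : ℝ :=
  -((2 * r l + r (l + 2) + r (l - 2)) / 4 - (2 - X - Y) * (r (l + 1) + r (l - 1)) / 2 +
    (1 - X) * (1 - Y) * r l) - ε ^ 2 * pp r l - ε * (Y - X) * (r (l - 1) - r (l + 1)) / 2

lemma rho_eq {μ L γ β : ℝ} (hβ : 1 + β ≠ 0) (r : ℤ → ℝ) (l : ℤ) :
    rho (1 + β - γ * μ) (1 + β - γ * L) β r l = (1 + β) ^ 2 *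
      nrho (γ / (1 + β) * μ) (γ / (1 + β) * L) ((1 - β) / (1 + β)) r l := by
  simp only [rho, nrho, pp]
  field_simp
  ring

lemma nrho_lin (X Y ε : ℝ) : ∃ a, ∀ r l, nrho X Y ε r l = lin a r l :=
  ⟨![-(1 / 2 + (1 - X) * (1 - Y)) - ε ^ 2 / 2, (2 - X - Y) / 2 + ε * (Y - X) / 2,
    (2 - X - Y) / 2 - ε * (Y - X) / 2, -1 / 4 + ε ^ 2 / 4, -1 / 4 + ε ^ 2 / 4], fun r l => by
    simp [nrho, pp, lin]; ring⟩

lemma nrho_ray {X Y ε ε' : ℝ} (hε : ε ≠ 0) {r : ℤ → ℝ} (h : ∀ l, r (-l) = r l) (l : ℤ) :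
    nrho X Y ε' r l = (1 + ε' / ε) / 2 * nrho X Y ε r l + (1 - ε' / ε) / 2 * nrho X Y ε r (-l) +
      (ε ^ 2 - ε' ^ 2) * pp r l := by
  have e1 : -l + 2 = -(l - 2) := by ring
  have e2 : -l - 2 = -(l + 2) := by ring
  have e3 : -l + 1 = -(l - 1) := by ring
  have e4 : -l - 1 = -(l + 1) := by ring
  simp only [nrho, pp, e1, e2, e3, e4, h]
  field_simp
  ring

lemma two_lt_of_nrho {X Y ε : ℝ} (hX : 0 < X) (hXY : X < Y) (hY : Y < 2) {r : ℤ → ℝ} (hr : PD r)
    (h0 : r 0 = 1) (hρ : 0 ≤ nrho X Y ε r 0) : r 2 < 1 := by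
  by_contra hc
  have h1 := abs_le.mp (hr.abs_le 2)
  have h2 := abs_le.mp (hr.abs_le 1)
  rw [h0] at h1 h2
  have h3 : r 2 = 1 := by linarith
  have e1 : r (-2) = 1 := by rw [hr.1, h3]
  simp only [nrho, pp, zero_add, zero_sub, hr.1, h0, h3] at hρ
  have h4 : 0 < X * Y := by nlinarith
  have h5 : 0 < (2 - X) * (2 - Y) := by nlinarith
  nlinarith [mul_nonneg h4.le (by linarith : 0 ≤ 1 + r 1), mul_nonneg h5.le (by linarith : 0 ≤ 1 - r 1)]

theorem exists_periodic {X Y ε ε' : ℝ} (hX : 0 < X) (hXY : X < Y) (hY : Y < 2) (hε' : 0 < ε')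
    (hε : ε' < ε) {r : ℤ → ℝ} (hr : PD r) (h0 : r 0 = 1) (hρ : 0 ≤ nrho X Y ε r 0)
    (hle : ∀ l, nrho X Y ε r l ≤ nrho X Y ε r 0) :
    ∃ (N : ℕ) (r' : ℤ → ℝ), 3 ≤ N ∧ PD r' ∧ (∀ l, r' (l + N) = r' l) ∧
      (∀ l, nrho X Y ε' r' l ≤ nrho X Y ε' r' 0) ∧ r' 2 ≠ r' 0 := by
  have hε0 : 0 < ε := hε'.trans hε
  have h2 := two_lt_of_nrho hX hXY hY hr h0 hρ
  have hpp : 0 < pp r 0 := by
    simp only [pp, zero_add, zero_sub, hr.1, h0]; linarith
  have ht0 : 0 < ε' / ε := by positivity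
  have ht1 : ε' / ε < 1 := (div_lt_one hε0).mpr hε
  have hsq : 0 < ε ^ 2 - ε' ^ 2 := by nlinarith
  have hgap : ∀ l, (ε ^ 2 - ε' ^ 2) * (pp r 0 - pp r l) ≤
      nrho X Y ε' r 0 - nrho X Y ε' r l := by
    intro l
    rw [nrho_ray hε0.ne' hr.1 l, nrho_ray hε0.ne' hr.1 0, neg_zero]
    have h3 := mul_le_mul_of_nonneg_left (hle l) (by linarith : 0 ≤ (1 + ε' / ε) / 2)
    have h4 := mul_le_mul_of_nonneg_left (hle (-l)) (by linarith : 0 ≤ (1 - ε' / ε) / 2)
    linarith
  have hb : ∀ l, 0 ≤ pp r 0 - pp r l := fun l => by linarith [(abs_le.mp (hr.pp.abs_le l)).2]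
  by_cases hcase : ∃ l ≠ 0, pp r l = pp r 0
  · obtain ⟨l, hl0, hl⟩ := hcase
    have hper : Function.Periodic r (2 * l) := periodic_of_pp hr hl
    refine ⟨4 * l.natAbs, r, by omega, hr, fun k => ?_, fun k => ?_, by linarith⟩
    · rcases le_total 0 l with h | h
      · have := hper.int_mul 2 k
        rw [← this]; congr 1; push_cast; rw [abs_of_nonneg h]; ring
      · have := hper.int_mul (-2) k
        rw [← this]; congr 1; push_cast; rw [abs_of_nonpos h]; ring
    · nlinarith [hgap k, mul_nonneg hsq.le (hb k)]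
  · push Not at hcase
    obtain ⟨a, ha⟩ := nrho_lin X Y ε'
    simp only [ha] at hgap ⊢
    refine exists_periodic_of_strict hr h0 ?_ fun l hl => ?_
    · rw [← ha, nrho_ray hε0.ne' hr.1 0, neg_zero]
      nlinarith [mul_pos hsq hpp]
    · have : 0 < pp r 0 - pp r l := lt_of_le_of_ne (hb l) (sub_ne_zero.mpr (hcase l hl).symm).symm
      nlinarith [hgap l, mul_pos hsq this]

theorem inCyc_of_dual {μ L γ β β' : ℝ} (hμ : 0 < μ) (hl : μ < L) (hs : Stable L γ β)
    (hd : Dual μ L γ β) (h1 : β < β') (h2 : β' < 1) :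
    InCyc μ L (γ * (1 + β') / (1 + β)) β' := by
  obtain ⟨hβ, hγ, hγL⟩ := hs
  have hs0 : 0 < 1 + β := by nlinarith
  have hs1 : 0 < 1 + β' := by linarith
  obtain ⟨r, hr, h0, hρ, hle⟩ := hd
  simp only [rho_eq hs0.ne', neg_zero, add_zero] at hρ hle
  have hsq : 0 < (1 + β) ^ 2 := by positivity
  have hγ' : 0 < γ / (1 + β) := by positivity
  obtain ⟨N, r', hN, hr', hper, hle', hne⟩ := exists_periodic (X := γ / (1 + β) * μ)
    (Y := γ / (1 + β) * L) (ε := (1 - β) / (1 + β)) (ε' := (1 - β') / (1 + β')) (by positivity)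
    (by gcongr) (by rw [div_mul_eq_mul_div, div_lt_iff₀ hs0]; linarith)
    (div_pos (by linarith) hs1) (by rw [div_lt_div_iff₀ hs1 hs0]; nlinarith) hr h0
    (nonneg_of_mul_nonneg_right hρ hsq |> fun h => by
      by_contra hc; exact absurd hρ (not_le.mpr (mul_neg_of_pos_of_neg hsq (not_le.mp hc))))
    (fun l => le_of_mul_le_mul_left (hle l) hsq)
  refine inCyc_of_periodic hμ hl (by positivity) hr' hN hper (fun l => ?_) hne
  have e : γ * (1 + β') / (1 + β) / (1 + β') = γ / (1 + β) := by field_simp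
  rw [rho_eq hs1.ne', rho_eq hs1.ne', e]
  exact mul_le_mul_of_nonneg_left (hle' l) (sq_nonneg _)

end Pool.Agent.MP_979a03_an
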