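import Pool.Agent.MP_979a03_an.Defs

/-! Worst-case (dimension-free) notions of convergence. -/

namespace Pool.Agent.MP_979a03_an

/-- Linear convergence with constants that do not depend on `d`, `f` or the starting points. -/
def LinRate (μ L γ β : ℝ) : Prop :=
  ∃ C ρ : ℝ, 0 ≤ ρ ∧ ρ < 1 ∧ ∀ d : ℕ, 1 ≤ d → ∀ f : EuclideanSpace ℝ (Fin d) → ℝ, InClass μ L f →
    ∀ xs, IsMinOn f Set.univ xs → ∀ x : ℕ → EuclideanSpace ℝ (Fin d), IsHB γ β f x →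
      ∀ t, ‖x t - xs‖ ≤ C * ρ ^ t * (‖x 0 - xs‖ + ‖x 1 - xs‖)

/-- The worst-case distance to the minimiser does not decay at all. -/
def NoDecay (μ L γ β : ℝ) : Prop :=
  ∀ T : ℕ, ∃ t ≥ T, ∃ d : ℕ, 1 ≤ d ∧ ∃ f : EuclideanSpace ℝ (Fin d) → ℝ, InClass μ L f ∧
    ∃ xs, IsMinOn f Set.univ xs ∧ ∃ x : ℕ → EuclideanSpace ℝ (Fin d), IsHB γ β f x ∧
      ‖x 0 - xs‖ ≤ 1 ∧ ‖x 1 - xs‖ ≤ 1 ∧ 1 ≤ ‖x t - xs‖

end Pool.Agent.MP_979a03_an
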