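import Pool.Agent.MP_979a03_an.Null

/-! An open set of tunings with convergence, no cycle and no Lyapunov sequence. -/

namespace Pool.Agent.MP_979a03_an

open Filter Topology

/-- The heavy-ball sequence. -/
noncomputable def hbSeq (γ β : ℝ) {d : ℕ} (f : EuclideanSpace ℝ (Fin d) → ℝ)
    (a b : EuclideanSpace ℝ (Fin d)) : ℕ → EuclideanSpace ℝ (Fin d)
  | 0 => a
  | 1 => b
  | t + 2 => hbSeq γ β f a b (t + 1) - γ • gradient f (hbSeq γ β f a b (t + 1)) +
      β • (hbSeq γ β f a b (t + 1) - hbSeq γ β f a b t)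

lemma not_inLyap_of_spiral {μ L γ β lam : ℝ} (hμ : 0 < μ) (hl : μ < L) (hγ : γ ≠ 0)
    (hlam : 1 < lam) {e : ℤ → EuclideanSpace ℝ (Fin 2)} {r : ℤ → ℝ}
    (he : ∀ s t, inner ℝ (e s) (e t) = r (t - s)) (h0 : r 0 = 1)
    (hρ0 : 0 ≤ rho ((1 + β - γ * μ) / lam) ((1 + β - γ * L) / lam) (β / lam ^ 2) r 0)
    (hρ : ∀ l, |l| ≤ 2 → rho ((1 + β - γ * μ) / lam) ((1 + β - γ * L) / lam) (β / lam ^ 2) r l ≤
      rho ((1 + β - γ * μ) / lam) ((1 + β - γ * L) / lam) (β / lam ^ 2) r 0) :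
    ¬ InLyap μ L γ β := by
  rintro ⟨a₁, a₂, c, hV⟩
  have hl0 : lam ≠ 0 := by linarith
  have hlp : 0 < lam := by linarith
  set p := (1 + β - γ * μ) / lam with hp
  set q := (1 + β - γ * L) / lam with hq
  set b := β / lam ^ 2 with hb
  set ρ := rho p q b r with hρd
  set X : ℕ → EuclideanSpace ℝ (Fin 2) := fun t => lam ^ t • e t with hX
  set w : ℕ → EuclideanSpace ℝ (Fin 2) := fun t => lam ^ t • -((γ⁻¹ * lam) • flt p b e t) with hw
  have hu : ∀ t, (L - μ) • X t - w t = lam ^ t • ((γ⁻¹ * lam) • flt q b e t) := by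
    intro t
    have e1 : L - μ = γ⁻¹ * lam * (p - q) := by rw [hp, hq]; field_simp; ring
    simp only [hw, hX, flt, e1]
    module
  have hwu : ∀ s t : ℕ, inner ℝ (w s) ((L - μ) • X t - w t) =
      (γ⁻¹ * lam) ^ 2 * (lam ^ s * lam ^ t * ρ ((t : ℤ) - s)) := by
    intro s t
    rw [hu]
    simp only [hw]
    rw [real_inner_smul_left, real_inner_smul_right, inner_neg_left, real_inner_smul_left,
      real_inner_smul_right, inner_flt he]
    ring
  set φ : ℕ → ℝ := fun t => (γ⁻¹ * lam) ^ 2 * ((lam ^ t) ^ 2 * (ρ 0 / 2)) with hφ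
  have hk : 0 ≤ (γ⁻¹ * lam) ^ 2 := sq_nonneg _
  obtain ⟨f, hf, hg⟩ := interp' (ι := Option (Fin 3)) hμ hl
    (fun i => i.elim 0 fun t => X t) (fun i => i.elim 0 fun t => w t)
    (fun i => i.elim 0 fun t => φ t) (by
      rintro (_ | i) (_ | j)
      · simp
      · simp only [Option.elim, inner_zero_left, sub_zero, hφ]
        positivity
      · simp only [Option.elim, smul_zero, inner_zero_right, hwu, sub_self, hφ]
        have : 0 ≤ (γ⁻¹ * lam) ^ 2 * ((lam ^ (i : ℕ)) ^ 2 * (ρ 0 / 2)) := by positivity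
        nlinarith
      · simp only [Option.elim, hwu, sub_self, hφ]
        have h1 := hρ ((j : ℕ) - (i : ℕ)) (by rw [abs_le]; constructor <;> omega)
        have h2 : 0 ≤ lam ^ (i : ℕ) * lam ^ (j : ℕ) := by positivity
        have h3 := mul_le_mul_of_nonneg_left h1 h2
        have h4 := mul_nonneg (sq_nonneg (lam ^ (i : ℕ) - lam ^ (j : ℕ))) hρ0
        rw [← mul_sub, ← mul_sub]
        refine mul_le_mul_of_nonneg_left ?_ hk
        nlinarith)
  have hg0 : gradient f 0 = 0 := by simpa using (hg none).1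
  have hf0 : f 0 = 0 := by simpa using (hg none).2
  have hgt : ∀ t : Fin 3, gradient f (X t) = w t + μ • X t := fun t => (hg (some t)).1
  have hft : ∀ t : Fin 3, f (X t) = (φ t + ‖w t‖ ^ 2 / 2) / (L - μ) + μ / 2 * ‖X t‖ ^ 2 :=
    fun t => (hg (some t)).2
  have hg1 : gradient f (X 1) = w 1 + μ • X 1 := hgt 1
  have hx2 : hbSeq γ β f (X 0) (X 1) 2 = X 2 := by
    simp only [hbSeq, hg1]
    simp only [hw, hX, flt]
    have e1 : β = lam ^ 2 * b := by rw [hb]; field_simp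
    have e2 : γ * μ = 1 + β - lam * p := by rw [hp]; field_simp; ring
    rw [smul_add γ, smul_smul γ μ, e2, smul_neg, smul_neg, smul_smul, smul_smul]
    have e3 : γ * lam ^ 1 * (γ⁻¹ * lam) = lam ^ 2 := by field_simp
    rw [e3]
    norm_num
    clear_value p b
    subst e1
    module
  obtain ⟨h1, h2⟩ := hV 2 (by norm_num) f hf 0 (isMinOn_of_grad_zero hμ hf hg0)
    (hbSeq γ β f (X 0) (X 1)) (fun t => rfl) 0
  rw [zero_add, hx2] at h1 h2
  change f (X 2) - f 0 ≤ lyapV a₁ a₂ c f 0 (X 1) (X 2) at h1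
  change lyapV a₁ a₂ c f 0 (X 1) (X 2) ≤ lyapV a₁ a₂ c f 0 (X 0) (X 1) at h2
  set G : ℤ → EuclideanSpace ℝ (Fin 2) := fun t => -((γ⁻¹ * lam) • flt p b e t) + μ • e t with hG
  have hgG : ∀ t : Fin 3, gradient f (X t) = lam ^ (t : ℕ) • G (t : ℕ) := by
    intro t
    rw [hgt]; simp only [hw, hX, hG]; module
  have hee : ∀ s t, inner ℝ (e (s + 1)) (e (t + 1)) = inner ℝ (e s) (e t) := by
    intro s t; rw [he, he]; congr 1; ring
  have hGs : ∀ s, G (s + 1) = -((γ⁻¹ * lam) • (e (s + 1 + 1) - p • e (s + 1) + b • e (s - 1 + 1))) +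
      μ • e (s + 1) := by
    intro s; simp only [hG, flt, add_sub_cancel_right, sub_add_cancel]
  have heG : ∀ s t, inner ℝ (e (s + 1)) (G (t + 1)) = inner ℝ (e s) (G t) := by
    intro s t
    rw [hGs]
    simp only [hG, flt, inner_add_right, inner_sub_right, inner_neg_right, real_inner_smul_right,
      hee]
  have hGe : ∀ s t, inner ℝ (G (s + 1)) (e (t + 1)) = inner ℝ (G s) (e t) := by
    intro s t; rw [real_inner_comm, heG, real_inner_comm]
  have hGG : ∀ s t, inner ℝ (G (s + 1)) (G (t + 1)) = inner ℝ (G s) (G t) := by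
    intro s t
    rw [hGs s]
    simp only [inner_add_left, inner_sub_left, inner_neg_left, real_inner_smul_left, heG]
    simp only [hG, flt, inner_add_left, inner_sub_left, inner_neg_left, real_inner_smul_left]
  have hne : ∀ t, ‖e t‖ ^ 2 = 1 := by
    intro t; rw [← real_inner_self_eq_norm_sq, he, sub_self, h0]
  have hnf : ∀ t, ‖flt p b e t‖ ^ 2 = - rho p p b r 0 := by
    intro t; rw [← real_inner_self_eq_norm_sq, inner_flt he, sub_self]
  set F₀ := ((γ⁻¹ * lam) ^ 2 * (ρ 0 / 2) + (γ⁻¹ * lam) ^ 2 * (- rho p p b r 0) / 2) / (L - μ) +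
    μ / 2 with hF₀
  have hfF : ∀ t : Fin 3, f (X t) = (lam ^ (t : ℕ)) ^ 2 * F₀ := by
    intro t
    rw [hft]
    simp only [hw, hX, hφ, hF₀, norm_smul, norm_neg, mul_pow, Real.norm_eq_abs, sq_abs, hne, hnf]
    ring
  have hF0 : 0 < F₀ := by
    have := hnf 0
    have h3 : 0 ≤ - rho p p b r 0 := this ▸ sq_nonneg _
    have : 0 < L - μ := by linarith
    positivity
  have hscale : lyapV a₁ a₂ c f 0 (X 1) (X 2) = lam ^ 2 * lyapV a₁ a₂ c f 0 (X 0) (X 1) := by
    have g0 : gradient f (X 0) = lam ^ 0 • G 0 := hgG 0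
    have g1 : gradient f (X 1) = lam ^ 1 • G 1 := hgG 1
    have g2 : gradient f (X 2) = lam ^ 2 • G 2 := hgG 2
    have f0 : f (X 0) = (lam ^ 0) ^ 2 * F₀ := hfF 0
    have f1 : f (X 1) = (lam ^ 1) ^ 2 * F₀ := hfF 1
    have f2 : f (X 2) = (lam ^ 2) ^ 2 * F₀ := hfF 2
    have a1 := hee 0 0
    have a2 := hee 0 1
    have a3 := hee 1 1
    have a4 := heG 0 0
    have a5 := heG 0 1
    have a6 := heG 1 1
    have a7 := hGe 0 1
    have a8 := hGG 0 0
    have a9 := hGG 0 1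
    have a10 := hGG 1 1
    norm_num at a1 a2 a3 a4 a5 a6 a7 a8 a9 a10
    simp only [lyapV, g0, g1, g2, f0, f1, f2, hf0, sub_zero]
    simp only [hX, Fin.sum_univ_four]
    simp [real_inner_smul_left, real_inner_smul_right, norm_smul, mul_pow, a1, a2, a3, a4, a5, a6,
      a7, a8, a9, a10]
    ring
  have f2 : f (X 2) = (lam ^ 2) ^ 2 * F₀ := hfF 2
  rw [f2, hf0, sub_zero] at h1
  have h3 : 0 < (lam ^ 2) ^ 2 * F₀ := by positivity
  have h4 : 1 < lam ^ 2 := by nlinarith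
  rw [hscale] at h1 h2
  nlinarith

end Pool.Agent.MP_979a03_an
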