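import Pool.Agent.MP_979a03_an.Gap

/-! The tangency tuning and the open set. -/

namespace Pool.Agent.MP_979a03_an

open Filter Topology

lemma exists_tangent {κ : ℝ} (h0 : 0 < κ) (h1 : κ < 1) :
    ∃ Y ε : ℝ, 0 < Y ∧ Y < 2 ∧ 0 < ε ∧ ε < 1 ∧
      κ * Y + Y - 2 * ε ^ 2 + ε * (Y - κ * Y) = 3 / 2 * (1 - ε ^ 2) ∧
      κ * Y * Y + 2 * ε * (Y - κ * Y) = 9 / 16 * (1 - ε ^ 2) := by
  set Yf : ℝ → ℝ := fun ε => (3 / 2 + ε ^ 2 / 2) / (1 + κ + ε * (1 - κ)) with hY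
  have hden : ∀ ε ∈ Set.Icc (0 : ℝ) 1, 0 < 1 + κ + ε * (1 - κ) := by
    intro ε hε; nlinarith [hε.1]
  have hc : ContinuousOn (fun ε => κ * Yf ε * Yf ε + 2 * ε * (Yf ε - κ * Yf ε) -
      9 / 16 * (1 - ε ^ 2)) (Set.Icc 0 1) := by
    have : ContinuousOn Yf (Set.Icc 0 1) :=
      ContinuousOn.div (by fun_prop) (by fun_prop) fun ε hε => (hden ε hε).ne'
    fun_prop
  have hY0 : Yf 0 = 3 / 2 / (1 + κ) := by simp [hY]
  have hY1 : Yf 1 = 1 := by simp only [hY]; norm_num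
  obtain ⟨ε, hε, hε0⟩ := intermediate_value_Ioo zero_le_one hc
    (show (0 : ℝ) ∈ Set.Ioo _ _ from ⟨by
      simp only [hY0]
      have : κ * (3 / 2 / (1 + κ)) * (3 / 2 / (1 + κ)) = 9 / 4 * κ / (1 + κ) ^ 2 := by
        field_simp; norm_num
      rw [this]
      have : 9 / 4 * κ / (1 + κ) ^ 2 < 9 / 16 := by
        rw [div_lt_iff₀ (by positivity)]; nlinarith [sq_pos_of_pos (sub_pos.mpr h1)]
      linarith, by simp only [hY1]; linarith⟩)
  have hd := hden ε ⟨hε.1.le, hε.2.le⟩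
  refine ⟨Yf ε, ε, by simp only [hY]; positivity, ?_, hε.1, hε.2, ?_, by
    simp only at hε0; linarith⟩
  · simp only [hY]
    rw [div_lt_iff₀ hd]
    nlinarith [hε.1, hε.2, mul_pos hε.1 (sub_pos.mpr h1)]
  · have : Yf ε * (1 + κ + ε * (1 - κ)) = 3 / 2 + ε ^ 2 / 2 := by
      simp only [hY]; field_simp
    linarith

lemma not_ndual_tangent {X Y ε : ℝ} (hX : 0 < X) (hXY : X < Y) (hY : Y < 2) (hε : 0 < ε)
    (hε1 : ε < 1) (e1 : X + Y - 2 * ε ^ 2 + ε * (Y - X) = 3 / 2 * (1 - ε ^ 2))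
    (e2 : X * Y + 2 * ε * (Y - X) = 9 / 16 * (1 - ε ^ 2)) {r : ℤ → ℝ} (hr : PD r) (h0 : r 0 = 1)
    (hρ : 0 ≤ nrho X Y ε r 0) (hle : ∀ l, nrho X Y ε r l ≤ nrho X Y ε r 0) : False := by
  have h2 := two_lt_of_nrho hX hXY hY hr h0 hρ
  have hsq : 0 < 1 - ε ^ 2 := by nlinarith
  set Z := 13 / 2 * r 0 - 21 / 2 * r 1 + 6 * r 2 - 2 * r 3 with hZ
  have hgap : nrho X Y ε r 0 - nrho X Y ε r (-1) = -(1 - ε ^ 2) * Z / 8 := by
    simp only [nrho, pp, hZ]
    norm_num [hr.1]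
    linear_combination (3 / 2 * r 0 - 2 * r 1 + r 2 / 2) * e1 - (r 0 - r 1) * e2
  have hZ0 : Z ≤ 0 := by
    have := hle (-1)
    nlinarith
  have hrec : ∀ n : ℤ, r (n + 3) - 3 / 2 * r (n + 2) + 3 / 2 * r (n + 1) - r n = 0 := by
    intro n
    have key : ∀ s : ℝ, 0 ≤ s ^ 2 * Z +
        2 * s * (r (n + 3) - 3 / 2 * r (n + 2) + 3 / 2 * r (n + 1) - r n) + r 0 := by
      intro s
      have := hr.2 5 ![3, 2, 1, 0, -n] ![s, -(3 / 2) * s, 3 / 2 * s, -s, 1]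
      have a1 : -n - 3 = -(n + 3) := by ring
      have a2 : -n - 2 = -(n + 2) := by ring
      have a3 : -n - 1 = -(n + 1) := by ring
      have a4 : 3 - -n = n + 3 := by ring
      have a5 : 2 - -n = n + 2 := by ring
      have a6 : 1 - -n = n + 1 := by ring
      simp only [Fin.sum_univ_five, Matrix.cons_val_zero, Matrix.cons_val_one, Matrix.cons_val,
        a1, a2, a3, a4, a5, a6, hr.1, sub_self, sub_zero, zero_sub, neg_neg] at this
      norm_num [hr.1] at this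
      rw [hZ]
      linarith
    set D := r (n + 3) - 3 / 2 * r (n + 2) + 3 / 2 * r (n + 1) - r n
    by_contra hne
    have := key (-(r 0 + 1) / (2 * D))
    have e : 2 * (-(r 0 + 1) / (2 * D)) * D = -(r 0 + 1) := by field_simp
    nlinarith [mul_nonneg (sq_nonneg (-(r 0 + 1) / (2 * D))) (neg_nonneg.mpr hZ0)]
  have r1 := hrec (-1)
  have r2 := hrec 0
  have r3 := hrec 1
  have r4 := hrec 2
  have r5 := hrec 3
  norm_num [hr.1] at r1 r2 r3 r4 r5
  set B := 4 / 3 * (1 - r 1) with hB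
  have v1 : r 1 = 1 - 3 / 4 * B := by rw [hB]; ring
  have v2 : r 2 = 1 - 15 / 8 * B := by linarith
  have v3 : r 3 = 1 - 27 / 16 * B := by linarith
  have v4 : r 4 = 1 - 15 / 32 * B := by linarith
  have v5 : r 5 = 1 - 3 / 64 * B := by linarith
  have v6 : r 6 = 1 - 135 / 128 * B := by linarith
  have hB0 : 0 < B := by linarith
  have h4 : nrho X Y ε r 0 - nrho X Y ε r 4 = -(15 / 64) * B * (ε * (Y - X)) := by
    simp only [nrho, pp]
    norm_num [hr.1]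
    rw [h0, v1, v2, v3, v4, v5, v6]
    linear_combination (45 / 128 * B) * e1 - (15 / 32 * B) * e2
  have := hle 4
  have h5 : 0 < B * (ε * (Y - X)) := mul_pos hB0 (mul_pos hε (by linarith))
  linarith

/-- The rotation by the angle with cosine `1/4`. -/
noncomputable def rot (t : ℤ) : EuclideanSpace ℝ (Fin 2) :=
  !₂[Real.cos (t * Real.arccos (1 / 4)), Real.sin (t * Real.arccos (1 / 4))]

/-- Its autocorrelation. -/
noncomputable def rc (l : ℤ) : ℝ := Real.cos (l * Real.arccos (1 / 4))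

lemma inner_rot (s t : ℤ) : inner ℝ (rot s) (rot t) = rc (t - s) := by
  simp only [rot, rc, PiLp.inner_apply, Fin.sum_univ_two]
  push_cast
  rw [sub_mul, Real.cos_sub]
  simp

lemma rc_neg (l : ℤ) : rc (-l) = rc l := by simp [rc]

lemma rc_vals : rc 0 = 1 ∧ rc 1 = 1 / 4 ∧ rc 2 = -7 / 8 ∧ rc 3 = -11 / 16 ∧ rc 4 = 17 / 32 := by
  have h1 : Real.cos (Real.arccos (1 / 4)) = 1 / 4 := Real.cos_arccos (by norm_num) (by norm_num)
  have h2 : Real.cos (2 * Real.arccos (1 / 4)) = -7 / 8 := by rw [Real.cos_two_mul, h1]; norm_num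
  refine ⟨by simp [rc], by simpa [rc] using h1, by simpa [rc] using h2, ?_, ?_⟩
  · simp only [rc]; push_cast; rw [Real.cos_three_mul, h1]; norm_num
  · simp only [rc]; push_cast
    rw [show (4 : ℝ) * Real.arccos (1 / 4) = 2 * (2 * Real.arccos (1 / 4)) by ring,
      Real.cos_two_mul, h2]; norm_num

/-- Strict spiral conditions. -/
def Spiral (p q β : ℝ) : Prop :=
  0 < rho p q β rc 0 ∧ rho p q β rc 1 < rho p q β rc 0 ∧ rho p q β rc (-1) < rho p q β rc 0 ∧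
    rho p q β rc 2 < rho p q β rc 0 ∧ rho p q β rc (-2) < rho p q β rc 0

lemma isOpen_spiral : IsOpen {a : ℝ × ℝ × ℝ | Spiral a.1 a.2.1 a.2.2} := by
  simp only [Spiral, rho, Set.ofPred_and]
  refine (isOpen_lt ?_ ?_).inter ((isOpen_lt ?_ ?_).inter ((isOpen_lt ?_ ?_).inter
    ((isOpen_lt ?_ ?_).inter (isOpen_lt ?_ ?_)))) <;> fun_prop

lemma not_inLyap_of_Spiral {μ L γ β : ℝ} (hμ : 0 < μ) (hl : μ < L) (hγ : γ ≠ 0)
    (h : Spiral (1 + β - γ * μ) (1 + β - γ * L) β) : ¬ InLyap μ L γ β := by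
  have hc : ContinuousAt (fun lam : ℝ =>
      (((1 + β - γ * μ) / lam, (1 + β - γ * L) / lam, β / lam ^ 2) : ℝ × ℝ × ℝ)) 1 := by
    fun_prop (disch := norm_num)
  have h1 := hc.eventually (isOpen_spiral.mem_nhds (by simpa using h))
  obtain ⟨lam, ⟨a0, a1, a2, a3, a4⟩, hlam⟩ :=
    ((h1.filter_mono nhdsWithin_le_nhds).and (self_mem_nhdsWithin (s := Set.Ioi (1 : ℝ)))).exists
  refine not_inLyap_of_spiral hμ hl hγ hlam inner_rot rc_vals.1 a0.le fun l hl => ?_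
  obtain ⟨h2, h3⟩ := abs_le.mp hl
  interval_cases l
  exacts [a4.le, a2.le, le_rfl, a1.le, a3.le]

theorem interior_nonempty {μ L : ℝ} (hμ : 0 < μ) (hl : μ < L) :
    (interior {p : ℝ × ℝ | ¬ InLyap μ L p.1 p.2 ∧ ¬ InCyc μ L p.1 p.2 ∧
      Converges μ L p.1 p.2}).Nonempty := by
  have hL : 0 < L := by linarith
  obtain ⟨Y, ε, hY0, hY2, hε0, hε1, e1, e2⟩ := exists_tangent (κ := μ / L) (by positivity)
    ((div_lt_one hL).mpr hl)
  set X := μ / L * Y with hX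
  have hX0 : 0 < X := by positivity
  have hXY : X < Y := by
    have : μ / L < 1 := (div_lt_one hL).mpr hl
    nlinarith
  set U : Set (ℝ × ℝ) := {p | p.2 < 1} ∩ {p | 0 < p.1} ∩ {p | p.1 * L < 2 * (1 + p.2)} ∩
    {p | Dual μ L p.1 p.2}ᶜ with hU
  have hUo : IsOpen U :=
    (((isOpen_lt (by fun_prop) (by fun_prop)).inter (isOpen_lt (by fun_prop) (by fun_prop))).inter
      (isOpen_lt (by fun_prop) (by fun_prop))).inter (isClosed_dual μ L).isOpen_compl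
  set V : Set (ℝ × ℝ) := {p | Spiral (1 + p.2 - p.1 * μ) (1 + p.2 - p.1 * L) p.2} with hV
  have hVo : IsOpen V := isOpen_spiral.preimage
    (f := fun p : ℝ × ℝ => (1 + p.2 - p.1 * μ, 1 + p.2 - p.1 * L, p.2)) (by fun_prop)
  set c : ℝ → ℝ × ℝ := fun e => (Y / L * (2 / (1 + e)), (1 - e) / (1 + e)) with hc
  have hcs : ∀ e, 0 < e → 1 + (c e).2 = 2 / (1 + e) ∧ (c e).1 / (1 + (c e).2) * μ = X ∧
      (c e).1 / (1 + (c e).2) * L = Y ∧ (1 - (c e).2) / (1 + (c e).2) = e := by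
    intro e he
    have h1 : 1 + (c e).2 = 2 / (1 + e) := by simp only [hc]; field_simp; ring
    rw [h1]
    simp only [hc, hX]
    refine ⟨trivial, by field_simp, by field_simp, by field_simp; ring⟩
  have hcU : c ε ∈ U := by
    obtain ⟨b1, b2, b3, b4⟩ := hcs ε hε0
    have hs0 : 0 < 1 + (c ε).2 := by rw [b1]; positivity
    refine ⟨⟨⟨?_, ?_⟩, ?_⟩, ?_⟩
    · change (1 - ε) / (1 + ε) < 1
      rw [div_lt_one (by linarith)]; linarith
    · change 0 < Y / L * (2 / (1 + ε))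
      positivity
    · change (c ε).1 * L < 2 * (1 + (c ε).2)
      rw [div_mul_eq_mul_div, div_eq_iff hs0.ne'] at b3
      rw [b3]; nlinarith
    · rintro ⟨r, hr, h0, hρ, hle⟩
      simp only [rho_eq hs0.ne', neg_zero, add_zero, b2, b3, b4] at hρ hle
      have hsq : 0 < (1 + (c ε).2) ^ 2 := by positivity
      refine not_ndual_tangent hX0 hXY hY2 hε0 hε1 e1 e2 hr h0 ?_
        fun l => le_of_mul_le_mul_left (hle l) hsq
      by_contra hc'
      exact absurd hρ (not_le.mpr (mul_neg_of_pos_of_neg hsq (not_le.mp hc')))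
  have hcV : ∀ e, 0 < e → e < ε → c e ∈ V := by
    intro e he heε
    obtain ⟨b1, b2, b3, b4⟩ := hcs e he
    have hs0 : 0 < 1 + (c e).2 := by rw [b1]; positivity
    have hsq : 0 < (1 + (c e).2) ^ 2 := by positivity
    obtain ⟨v0, v1, v2, v3, v4⟩ := rc_vals
    have hR : 5 / 4 * (e * (Y - X)) < (3 / 4 - X) * (Y - 3 / 4) - 15 / 16 * e ^ 2 := by
      have h1 : (3 / 4 - X) * (Y - 3 / 4) - 15 / 16 * ε ^ 2 = 5 / 4 * (ε * (Y - X)) := by
        linear_combination (3 / 4) * e1 - e2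
      have h2 : e * (Y - X) < ε * (Y - X) := by nlinarith
      nlinarith
    have hJ : 0 < e * (Y - X) := mul_pos he (by linarith)
    change Spiral _ _ _
    simp only [Spiral, rho_eq hs0.ne', b2, b3, b4]
    refine ⟨mul_pos hsq ?_, mul_lt_mul_of_pos_left ?_ hsq, mul_lt_mul_of_pos_left ?_ hsq,
      mul_lt_mul_of_pos_left ?_ hsq, mul_lt_mul_of_pos_left ?_ hsq⟩
    all_goals
      simp only [nrho, pp]
      norm_num [rc_neg, v0, v1, v2, v3, v4]
      nlinarith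
  have hcc : ContinuousAt c ε := by
    simp only [hc]
    have : 1 + ε ≠ 0 := by linarith
    fun_prop (disch := assumption)
  have h1 := hcc.eventually (hUo.mem_nhds hcU)
  obtain ⟨e, ⟨he1, he2⟩, he3⟩ := (((h1.and (lt_mem_nhds hε0)).filter_mono nhdsWithin_le_nhds).and
    (self_mem_nhdsWithin (s := Set.Iio ε))).exists
  refine ⟨c e, interior_maximal ?_ (hUo.inter hVo) ⟨he1, hcV e he2 he3⟩⟩
  rintro ⟨γ, β⟩ ⟨⟨⟨⟨a1, a2⟩, a3⟩, a4⟩, a5⟩
  have hconv : Converges μ L γ β := by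
    by_contra hn
    exact a4 (dual_of_not_converges hμ hl ⟨a1, a2, a3⟩ hn)
  exact ⟨not_inLyap_of_Spiral hμ hl (ne_of_gt a2) a5,
    fun h => not_converges_of_inCyc h hconv, hconv⟩

end Pool.Agent.MP_979a03_an
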