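import Pool.Agent.MP_979a03_an.Cycle

/-! Outside the quadratic stability region the method fails on a quadratic. -/

namespace Pool.Agent.MP_979a03_an

open Filter Topology

lemma tendsto_of_converges {μ L γ β k : ℝ} (hμ : 0 < μ) (hl : μ < L) (hk0 : 0 ≤ k)
    (hk : k ≤ L - μ) (hc : Converges μ L γ β) {s : ℕ → ℝ}
    (hs : ∀ t, s (t + 2) = (1 + β - γ * (k + μ)) * s (t + 1) - β * s t) :
    Tendsto s atTop (𝓝 0) := by
  have hl' : 0 < L - μ := by linarith
  have H : Fld (E := EuclideanSpace ℝ (Fin 1)) (L - μ) (fun y => k / 2 * ‖y‖ ^ 2)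
      (fun y => k • y) := by
    intro x y
    have e : ‖y‖ ^ 2 = ‖x‖ ^ 2 + 2 * inner ℝ x (y - x) + ‖y - x‖ ^ 2 := by
      have : y = x + (y - x) := by abel
      conv_lhs => rw [this]
      rw [norm_add_sq_real]
    simp only
    rw [← smul_sub, norm_smul, mul_pow, Real.norm_eq_abs, sq_abs, real_inner_smul_left, e]
    have h1 : k ^ 2 * ‖y - x‖ ^ 2 / (2 * (L - μ)) ≤ k / 2 * ‖y - x‖ ^ 2 := by
      rw [div_le_iff₀ (by positivity)]
      have := mul_nonneg (mul_nonneg hk0 (sub_nonneg.mpr hk)) (sq_nonneg ‖y - x‖)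
      nlinarith
    linarith
  obtain ⟨hf, hg⟩ := H.inClass hμ hl
  set e : EuclideanSpace ℝ (Fin 1) := EuclideanSpace.single 0 1 with he
  obtain ⟨xs, hxs, ht⟩ := hc 1 le_rfl _ hf (fun t => s t • e) (fun t => by
    simp only [hg, hs]
    module)
  have h0 : (0 : EuclideanSpace ℝ (Fin 1)) = xs := isMinOn_unique hμ hf (by rw [hg]; simp) hxs
  rw [← h0, tendsto_zero_iff_norm_tendsto_zero] at ht
  rw [tendsto_zero_iff_norm_tendsto_zero]
  simpa [norm_smul, he] using ht

lemma not_tendsto_pow {a : ℝ} (ha : 1 ≤ |a|) : ¬ Tendsto (fun t : ℕ => a ^ t) atTop (𝓝 0) := by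
  rw [tendsto_pow_atTop_nhds_zero_iff]; linarith

lemma exists_root {a β : ℝ} (h : 1 + β ≤ |a|) : ∃ z : ℝ, 1 ≤ |z| ∧ z ^ 2 = a * z - β := by
  have h1 : ∃ z : ℝ, 1 ≤ z ∧ z ^ 2 = |a| * z - β := by
    have hc : ContinuousOn (fun z : ℝ => z ^ 2 - |a| * z + β) (Set.Icc 1 (1 + |a| + |β|)) := by
      fun_prop
    have ha := abs_nonneg a
    have hb := abs_nonneg β
    have hb' := neg_abs_le β
    obtain ⟨z, hz, hz0⟩ := intermediate_value_Icc (by linarith) hc (a := 1)
      (show (0 : ℝ) ∈ Set.Icc _ _ from ⟨by linarith, by nlinarith⟩)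
    exact ⟨z, hz.1, by simp only at hz0; linarith⟩
  obtain ⟨z, hz, hz0⟩ := h1
  rcases abs_cases a with ha | ha
  · exact ⟨z, by rw [abs_of_pos (by linarith)]; exact hz, by rw [hz0, ha.1]⟩
  · exact ⟨-z, by rw [abs_neg, abs_of_pos (by linarith)]; exact hz, by rw [neg_sq, hz0, ha.1]; ring⟩

/-- Solutions of the scalar recurrence. -/
noncomputable def recSeq (a β u v : ℝ) : ℕ → ℝ
  | 0 => u
  | 1 => v
  | t + 2 => a * recSeq a β u v (t + 1) - β * recSeq a β u v t

theorem stable_of_converges {μ L γ β : ℝ} (hμ : 0 < μ) (hl : μ < L) (hc : Converges μ L γ β) :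
    Stable L γ β := by
  have key : ∀ k, 0 ≤ k → k ≤ L - μ → |1 + β - γ * (k + μ)| < 1 + β := by
    intro k hk0 hk
    by_contra hcon
    obtain ⟨z, hz, hz0⟩ := exists_root (not_lt.mp hcon)
    refine not_tendsto_pow hz (tendsto_of_converges hμ hl hk0 hk hc fun t => ?_)
    rw [pow_add, hz0]; ring
  have h1 := abs_lt.mp (key 0 le_rfl (by linarith))
  have h2 := abs_lt.mp (key (L - μ) (by linarith) le_rfl)
  refine ⟨?_, ?_, by nlinarith⟩
  · by_contra hβ
    rw [not_lt] at hβ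
    set a := 1 + β - γ * (0 + μ)
    have hx := tendsto_of_converges hμ hl le_rfl (by linarith) hc (s := recSeq a β 0 1)
      fun t => rfl
    have hy := tendsto_of_converges hμ hl le_rfl (by linarith) hc (s := recSeq a β 1 0)
      fun t => rfl
    have hW : ∀ t, 1 ≤ recSeq a β 0 1 (t + 1) * recSeq a β 1 0 t -
        recSeq a β 0 1 t * recSeq a β 1 0 (t + 1) := by
      intro t
      induction t with
      | zero => simp [recSeq]
      | succ n ih =>
        rw [recSeq, recSeq]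
        nlinarith
    have h3 := (((tendsto_add_atTop_iff_nat 1).mpr hx).mul hy).sub
      (hx.mul ((tendsto_add_atTop_iff_nat 1).mpr hy))
    have := ge_of_tendsto' h3 hW
    norm_num at this
  · by_contra hγ
    nlinarith

end Pool.Agent.MP_979a03_an
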