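import Mathlib.Analysis.SpecialFunctions.PolarCoord
import Pool.Agent.MP_979a03_an.Unstable

/-! The exceptional set is Lebesgue null. -/

namespace Pool.Agent.MP_979a03_an

open Filter Topology MeasureTheory

lemma stable_ray {L γ β β' : ℝ} (hL : 0 < L) (hs : Stable L γ β) (h1 : -1 < β') (h2 : β' < 1) :
    Stable L (γ * (1 + β') / (1 + β)) β' := by
  obtain ⟨hβ, hγ, hγL⟩ := hs
  have hs0 : 0 < 1 + β := by nlinarith
  have hs1 : 0 < 1 + β' := by linarith
  refine ⟨h2, by positivity, ?_⟩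
  rw [div_mul_eq_mul_div, div_lt_iff₀ hs0]
  nlinarith

lemma not_dual_below {μ L γ β β' : ℝ} (hμ : 0 < μ) (hl : μ < L) (hs : Stable L γ β)
    (hc : ¬ InCyc μ L γ β) (h1 : -1 < β') (h2 : β' < β) :
    ¬ Dual μ L (γ * (1 + β') / (1 + β)) β' := by
  intro hd
  have hs0 : 0 < 1 + β := by linarith
  have hs1 : 0 < 1 + β' := by linarith
  have := inCyc_of_dual hμ hl (stable_ray (by linarith) hs h1 (h2.trans hs.1)) hd h2 hs.1
  have e : γ * (1 + β') / (1 + β) * (1 + β) / (1 + β') = γ := by field_simp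
  rw [e] at this
  exact hc this

theorem exceptional_null {μ L : ℝ} (hμ : 0 < μ) (hl : μ < L) :
    volume {p : ℝ × ℝ | Stable L p.1 p.2 ∧ Dual μ L p.1 p.2 ∧ ¬ InCyc μ L p.1 p.2} = 0 := by
  set D : Set (ℝ × ℝ) := {z | Dual μ L (z.1 * (1 + z.2)) z.2} with hD
  have hDc : IsClosed D := (isClosed_dual μ L).preimage
    (f := fun z : ℝ × ℝ => (z.1 * (1 + z.2), z.2)) (by fun_prop)
  set M : Set (ℝ × ℝ) := {z | 0 < z.1} ∩ {z | z.1 * L < 2} ∩ {z | -1 < z.2} ∩ {z | z.2 < 1} ∩ D ∩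
    ⋂ q : ℚ, ({z | (q : ℝ) ≤ -1} ∪ {z | z.2 ≤ q} ∪ ((fun z => (z.1, (q : ℝ))) ⁻¹' D)ᶜ) with hM
  have hMm : MeasurableSet M := by
    refine MeasurableSet.inter (MeasurableSet.inter (MeasurableSet.inter (MeasurableSet.inter
      (MeasurableSet.inter ?_ ?_) ?_) ?_) hDc.measurableSet) (MeasurableSet.iInter fun q =>
      MeasurableSet.union (MeasurableSet.union ?_ ?_) ?_)
    · exact (isOpen_lt (by fun_prop) (by fun_prop)).measurableSet
    · exact (isOpen_lt (by fun_prop) (by fun_prop)).measurableSet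
    · exact (isOpen_lt (by fun_prop) (by fun_prop)).measurableSet
    · exact (isOpen_lt (by fun_prop) (by fun_prop)).measurableSet
    · exact (isClosed_le (by fun_prop) (by fun_prop)).measurableSet
    · exact (isClosed_le (by fun_prop) (by fun_prop)).measurableSet
    · exact (hDc.preimage (by fun_prop)).measurableSet.compl
  have hsub : ∀ g : ℝ, (Prod.mk g ⁻¹' M).Subsingleton := by
    intro g
    have key : ∀ a b, a ∈ Prod.mk g ⁻¹' M → b ∈ Prod.mk g ⁻¹' M → ¬ a < b := by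
      intro a b ha hb hab
      obtain ⟨⟨⟨⟨⟨h1, h2⟩, h3⟩, h4⟩, h5⟩, -⟩ := ha
      obtain ⟨⟨⟨⟨⟨-, -⟩, -⟩, h4'⟩, -⟩, h6⟩ := hb
      simp only [Set.mem_ofPred_eq] at h1 h2 h3 h4 h4'
      obtain ⟨q, hq1, hq2⟩ := exists_rat_btwn hab
      have hs : Stable L (g * (1 + a)) a := ⟨h4, by nlinarith, by nlinarith⟩
      have h7 := inCyc_of_dual hμ hl hs h5 hq1 (hq2.trans h4')
      have h8 := dual_of_not_converges hμ hl
        (stable_ray (by linarith) hs (h3.trans hq1) (hq2.trans h4')) (not_converges_of_inCyc h7)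
      have e : g * (1 + a) * (1 + q) / (1 + a) = g * (1 + q) := by
        have : 1 + a ≠ 0 := by linarith
        field_simp
      rw [e] at h8
      rcases Set.mem_iInter.mp h6 q with (h | h) | h
      · simp only [Set.mem_ofPred_eq] at h; linarith
      · simp only [Set.mem_ofPred_eq] at h; linarith
      · exact h h8
    intro a ha b hb
    exact le_antisymm (not_lt.mp (key b a hb ha)) (not_lt.mp (key a b ha hb))
  have hM0 : volume M = 0 := by
    rw [Measure.volume_eq_prod, Measure.measure_prod_null hMm]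
    exact Eventually.of_forall fun g => (hsub g).measure_zero _
  have him := addHaar_image_eq_zero_of_differentiableOn_of_addHaar_eq_zero volume
    (f := fun z : ℝ × ℝ => (z.1 * (1 + z.2), z.2)) (s := M) (by fun_prop) hM0
  refine measure_mono_null ?_ him
  rintro ⟨γ, β⟩ ⟨hs, hd, hc⟩
  simp only at hs hd hc
  obtain ⟨hβ, hγ, hγL⟩ := id hs
  have hs0 : 0 < 1 + β := by nlinarith
  have e : γ / (1 + β) * (1 + β) = γ := by field_simp
  refine ⟨(γ / (1 + β), β), ⟨⟨⟨⟨⟨?_, ?_⟩, ?_⟩, hβ⟩, ?_⟩, Set.mem_iInter.mpr fun q => ?_⟩, ?_⟩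
  · exact div_pos hγ hs0
  · change γ / (1 + β) * L < 2
    rw [div_mul_eq_mul_div, div_lt_iff₀ hs0]; linarith
  · change -1 < β
    linarith
  · change Dual μ L (γ / (1 + β) * (1 + β)) β
    rwa [e]
  · by_cases h1 : (q : ℝ) ≤ -1
    · exact Or.inl (Or.inl h1)
    by_cases h2 : β ≤ q
    · exact Or.inl (Or.inr h2)
    refine Or.inr ?_
    have := not_dual_below hμ hl hs hc (not_le.mp h1) (not_le.mp h2)
    change ¬ Dual μ L (γ / (1 + β) * (1 + q)) q
    rwa [div_mul_eq_mul_div]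
  · simp only [e]

end Pool.Agent.MP_979a03_an
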