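import Mathlib.Order.Interval.Finset.Box
import Pool.Agent.MP_979a03_an.Dual

/-! Non-convergence implies dual feasibility. -/

namespace Pool.Agent.MP_979a03_an

open Filter Topology

variable {E : Type*} [NormedAddCommGroup E] [InnerProductSpace ℝ E]

lemma Fld.mono {ℓ : ℝ} (hl : 0 < ℓ) {h : E → ℝ} {W : E → E} (H : Fld ℓ h W) (x y : E) :
    inner ℝ (W x) (ℓ • y - W y) - inner ℝ (W x) (ℓ • x - W x) ≤
      (ℓ * h y - ‖W y‖ ^ 2 / 2) - (ℓ * h x - ‖W x‖ ^ 2 / 2) := by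
  have h1 := H x y
  rw [norm_sub_sq_real, inner_sub_right, real_inner_comm (W x) (W y)] at h1
  rw [inner_sub_right, inner_sub_right, real_inner_smul_right, real_inner_smul_right,
    real_inner_self_eq_norm_sq]
  have h2 := mul_le_mul_of_nonneg_left h1 hl.le
  have e : ℓ * (h x + (inner ℝ (W x) y - inner ℝ (W x) x) +
      (‖W y‖ ^ 2 - 2 * inner ℝ (W x) (W y) + ‖W x‖ ^ 2) / (2 * ℓ)) =
      ℓ * h x + ℓ * inner ℝ (W x) y - ℓ * inner ℝ (W x) x +
      (‖W y‖ ^ 2 - 2 * inner ℝ (W x) (W y) + ‖W x‖ ^ 2) / 2 := by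
    field_simp; ring
  rw [e] at h2
  linarith

lemma dualA_of_trunc {ℓ p β γ : ℝ} (hl : 0 < ℓ) (hβ : |β| ≤ 1) {h : E → ℝ} {W : E → E}
    (H : Fld ℓ h W) (hW0 : W 0 = 0) {x : ℕ → E}
    (hx : ∀ t, x (t + 2) = p • x (t + 1) - β • x t - γ • W (x (t + 1))) (T : ℕ)
    {η θ : ℝ} (hθ : 0 < θ) (hpos : 0 < ∑ k ∈ Finset.range (T + 1), ‖x (k + 1)‖ ^ 2)
    (hb : (‖x 0‖ + ‖x 1‖ + ‖x (T + 1)‖ + ‖x (T + 2)‖) ^ 2 ≤
      η * ∑ k ∈ Finset.range (T + 1), ‖x (k + 1)‖ ^ 2) :
    DualA p (p - γ * ℓ) β (2 * (η / θ + η + 5 / 2 * θ * (γ * ℓ) ^ 2)) := by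
  set En := ∑ k ∈ Finset.range (T + 1), ‖x (k + 1)‖ ^ 2 with hEn
  set X : ℤ → E := fun i => x ((i % ((T + 1 : ℕ) : ℤ)).toNat + 1) with hX
  have hXp : ∀ k, X (k + ((T + 1 : ℕ) : ℤ)) = X k := by
    intro k; simp only [hX, Int.add_emod_right]
  have hXk : ∀ k : ℕ, k < T + 1 → X k = x (k + 1) := by
    intro k hk
    simp only [hX]
    rw [Int.emod_eq_of_lt (by positivity) (by exact_mod_cast hk), Int.toNat_natCast]
  have hX0 : corr (T + 1) X X 0 = En := by
    rw [corr_zero]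
    exact Finset.sum_congr rfl fun k hk => by rw [hXk k (Finset.mem_range.mp hk)]
  set P : ℤ → E := fun i => γ • W (X i) with hP
  set Q : ℤ → E := fun i => γ • (ℓ • X i - W (X i)) with hQ
  set e : ℤ → E := fun i => flt p β X i + P i with he
  have hPp : ∀ k, P (k + ((T + 1 : ℕ) : ℤ)) = P k := by intro k; simp only [hP, hXp]
  have hQp : ∀ k, Q (k + ((T + 1 : ℕ) : ℤ)) = Q k := by intro k; simp only [hQ, hXp]
  have hep : ∀ k, e (k + ((T + 1 : ℕ) : ℤ)) = e k := by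
    intro k
    have e1 : k + ((T + 1 : ℕ) : ℤ) + 1 = k + 1 + ((T + 1 : ℕ) : ℤ) := by ring
    have e2 : k + ((T + 1 : ℕ) : ℤ) - 1 = k - 1 + ((T + 1 : ℕ) : ℤ) := by ring
    simp only [he, flt, e1, e2, hXp, hPp]
  have hrho : ∀ l, rho p (p - γ * ℓ) β (corr (T + 1) X X) l =
      corr (T + 1) P Q l + corr (T + 1) P e l - corr (T + 1) e Q l - corr (T + 1) e e l := by
    intro l
    have h1 := corr_flt hXp p (p - γ * ℓ) β l
    have h2 : flt p β X = fun i => e i - P i := by funext i; simp [he]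
    have h3 : flt (p - γ * ℓ) β X = fun i => Q i + e i := by
      funext i; simp only [he, hQ, hP, flt]; module
    rw [h2, h3] at h1
    simp only [corr, inner_sub_left, inner_add_right, Finset.sum_add_distrib,
      Finset.sum_sub_distrib] at h1 ⊢
    linarith
  have hPQ : ∀ l, corr (T + 1) P Q l ≤ corr (T + 1) P Q 0 := by
    intro l
    set φ : ℤ → ℝ := fun i => ℓ * h (X i) - ‖W (X i)‖ ^ 2 / 2 with hφ
    have h1 := sum_shift (T := T + 1) (φ := φ) (fun k => by simp only [hφ, hXp]) l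
    have h2 : corr (T + 1) P Q l - corr (T + 1) P Q 0 ≤
        γ ^ 2 * (∑ k ∈ Finset.range (T + 1), φ (k + l) - ∑ k ∈ Finset.range (T + 1), φ k) := by
      simp only [corr, ← Finset.sum_sub_distrib, Finset.mul_sum, add_zero]
      refine Finset.sum_le_sum fun k _ => ?_
      have := H.mono hl (X k) (X (k + l))
      simp only [hP, hQ, hφ, real_inner_smul_left, real_inner_smul_right]
      nlinarith [sq_nonneg γ]
    rw [h1] at h2
    linarith
  have hPQ0 : 0 ≤ corr (T + 1) P Q 0 := by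
    refine Finset.sum_nonneg fun k _ => ?_
    have h1 := H.mono hl (X k) 0
    have h2 := H.mono hl 0 (X k)
    simp only [hW0, smul_zero, sub_zero, inner_zero_right, inner_zero_left] at h1 h2
    simp only [hP, hQ, real_inner_smul_left, real_inner_smul_right, add_zero]
    nlinarith [sq_nonneg γ]
  have hWle : ∀ y, ‖W y‖ ≤ ℓ * ‖y‖ := fun y => by simpa [hW0] using H.lip hl y 0
  have hNP : corr (T + 1) P P 0 ≤ (γ * ℓ) ^ 2 * En := by
    rw [← hX0, corr_zero, corr_zero, Finset.mul_sum]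
    refine Finset.sum_le_sum fun k _ => ?_
    simp only [hP, norm_smul, Real.norm_eq_abs, mul_pow, sq_abs]
    have := pow_le_pow_left₀ (norm_nonneg _) (hWle (X k)) 2
    rw [mul_pow] at this
    nlinarith [sq_nonneg γ]
  have hNQ : corr (T + 1) Q Q 0 ≤ 4 * (γ * ℓ) ^ 2 * En := by
    rw [← hX0, corr_zero, corr_zero, Finset.mul_sum]
    refine Finset.sum_le_sum fun k _ => ?_
    simp only [hQ, norm_smul, Real.norm_eq_abs, mul_pow, sq_abs]
    have h1 : ‖ℓ • X k - W (X k)‖ ≤ 2 * ℓ * ‖X k‖ := by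
      have := norm_sub_le (ℓ • X k) (W (X k))
      rw [norm_smul, Real.norm_eq_abs, abs_of_pos hl] at this
      linarith [hWle (X k)]
    have := pow_le_pow_left₀ (norm_nonneg _) h1 2
    rw [mul_pow, mul_pow] at this
    nlinarith [sq_nonneg γ]
  have hNe : corr (T + 1) e e 0 ≤ η * En := by
    refine le_trans ?_ hb
    rw [corr_zero]
    have h1 : ∑ k ∈ Finset.range (T + 1), ‖e k‖ ^ 2 ≤ (∑ k ∈ Finset.range (T + 1), ‖e k‖) ^ 2 :=
      Finset.sum_sq_le_sq_sum_of_nonneg fun k _ => norm_nonneg _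
    refine h1.trans (pow_le_pow_left₀ (by positivity) ?_ 2)
    have h2 : ∀ k ∈ Finset.range (T + 1), ‖e k‖ ≤
        ‖X (k + 1) - x (k + 2)‖ + ‖X (k - 1) - x k‖ := by
      intro k hk
      have e1 : e k = (X (k + 1) - x (k + 2)) + β • (X (k - 1) - x k) := by
        simp only [he, hP, flt]
        rw [hXk k (Finset.mem_range.mp hk), hx]
        module
      rw [e1]
      refine (norm_add_le _ _).trans ?_
      rw [norm_smul, Real.norm_eq_abs]
      nlinarith [norm_nonneg (X (k - 1) - x k)]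
    refine (Finset.sum_le_sum h2).trans ?_
    rw [Finset.sum_add_distrib, Finset.sum_range_succ, Finset.sum_range_succ']
    have h3 : ∑ k ∈ Finset.range T, ‖X (k + 1) - x (k + 2)‖ = 0 := by
      refine Finset.sum_eq_zero fun k hk => ?_
      have := hXk (k + 1) (by simpa using Finset.mem_range.mp hk)
      push_cast at this
      rw [this, sub_self, norm_zero]
    have h4 : ∑ k ∈ Finset.range T, ‖X (((k + 1 : ℕ) : ℤ) - 1) - x (k + 1)‖ = 0 := by
      refine Finset.sum_eq_zero fun k hk => ?_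
      have := hXk k (by have := Finset.mem_range.mp hk; omega)
      have e1 : (((k + 1 : ℕ) : ℤ) - 1) = k := by push_cast; ring
      rw [e1, this, sub_self, norm_zero]
    have h5 : X (T + 1) = x 1 := by
      have := hXp 0
      rw [zero_add] at this
      push_cast at this
      rw [this]; exact hXk 0 (by omega)
    have h6 : X (((0 : ℕ) : ℤ) - 1) = x (T + 1) := by
      rw [← hXp, ← hXk T (by omega)]; congr 1; push_cast; ring
    rw [h3, h4, h5, h6]
    linarith [norm_sub_le (x 1) (x (T + 2)), norm_sub_le (x (T + 1)) (x 0)]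
  have herr : ∀ l, |corr (T + 1) P e l - corr (T + 1) e Q l - corr (T + 1) e e l| ≤
      (η / θ + η + 5 / 2 * θ * (γ * ℓ) ^ 2) * En := by
    intro l
    have h1 := abs_le.mp (abs_corr_le (F := P) hep l (θ := θ⁻¹) (by positivity))
    have h2 := abs_le.mp (abs_corr_le (F := e) hQp l hθ)
    have h3 := abs_le.mp (abs_corr_le (F := e) hep l one_pos)
    have e1 : corr (T + 1) P P 0 / (2 * θ⁻¹) = θ / 2 * corr (T + 1) P P 0 := by field_simp
    have e2 : θ⁻¹ / 2 * corr (T + 1) e e 0 = corr (T + 1) e e 0 / (2 * θ) := by field_simp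
    rw [e1, e2] at h1
    have h4 : corr (T + 1) e e 0 / (2 * θ) ≤ η / θ * En / 2 := by
      have : η / θ * En / 2 = η * En / (2 * θ) := by field_simp
      rw [this]; gcongr
    have h5 := mul_le_mul_of_nonneg_left hNP (by positivity : 0 ≤ θ / 2)
    have h6 := mul_le_mul_of_nonneg_left hNQ (by positivity : 0 ≤ θ / 2)
    rw [abs_le]
    constructor <;> nlinarith
  have hPD := corr_PD hXp
  refine ⟨fun l => corr (T + 1) X X l / En, ⟨fun l => by simp only [hPD.1], fun n t c => ?_⟩,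
    ?_, ?_, ?_⟩
  · have := div_nonneg (hPD.2 n t c) hpos.le
    simp only [Finset.sum_div] at this
    simpa only [mul_div_assoc] using this
  · simp only [hX0]; exact div_self hpos.ne'
  all_goals
    have hsc : ∀ l, rho p (p - γ * ℓ) β (fun l => corr (T + 1) X X l / En) l =
        rho p (p - γ * ℓ) β (corr (T + 1) X X) l / En := by
      intro l; simp only [rho]; field_simp
    have hη : 0 ≤ (η / θ + η + 5 / 2 * θ * (γ * ℓ) ^ 2) * En := (abs_nonneg _).trans (herr 0)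
  · rw [hsc, le_div_iff₀ hpos, hrho]
    have := abs_le.mp (herr 0)
    linarith
  · intro l
    rw [hsc, hsc, div_add' _ _ _ hpos.ne', div_le_div_iff_of_pos_right hpos, hrho, hrho]
    have h1 := abs_le.mp (herr 0)
    have h2 := abs_le.mp (herr l)
    linarith [hPQ l]

lemma linear_growth {p β γ B : ℝ} (hβ : β < 1) (hp : |p| < 1 + β) {W : E → E}
    (hB : ∀ y, ‖W y‖ ≤ B) {x : ℕ → E}
    (hx : ∀ t, x (t + 2) = p • x (t + 1) - β • x t - γ • W (x (t + 1))) :
    ∃ C, 0 ≤ C ∧ ∀ t : ℕ, ‖x t‖ ^ 2 + ‖x (t + 1)‖ ^ 2 ≤ C * (1 + t) := by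
  set V : ℕ → ℝ := fun t =>
    (1 + β) / 2 * (‖x (t + 1)‖ ^ 2 + ‖x t‖ ^ 2) - p * inner ℝ (x (t + 1)) (x t) with hV
  set c := γ ^ 2 * B ^ 2 / (2 * (1 - β)) with hc
  have h1β : 0 < 1 - β := by linarith
  have hstep : ∀ t, V (t + 1) ≤ V t + c := by
    intro t
    have h1 := young (1 - β) h1β (-(γ • W (x (t + 1)))) (x (t + 2) - x t)
    have e1 : -(γ • W (x (t + 1))) = x (t + 2) - p • x (t + 1) + β • x t := by
      rw [hx]; abel
    have h2 : ‖-(γ • W (x (t + 1)))‖ ^ 2 / (2 * (1 - β)) ≤ c := by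
      rw [hc, norm_neg, norm_smul, mul_pow, Real.norm_eq_abs, sq_abs]
      gcongr
      exact hB _
    have h3 : inner ℝ (-(γ • W (x (t + 1)))) (x (t + 2) - x t) =
        V (t + 1) - V t + (1 - β) / 2 * ‖x (t + 2) - x t‖ ^ 2 := by
      rw [e1, norm_sub_sq_real]
      simp only [hV, inner_add_left, inner_sub_left, inner_sub_right, real_inner_smul_left,
        real_inner_self_eq_norm_sq]
      rw [real_inner_comm (x (t + 2)) (x t), real_inner_comm (x (t + 2)) (x (t + 1))]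
      ring
    linarith
  have hVt : ∀ t : ℕ, V t ≤ V 0 + c * t := by
    intro t
    induction t with
    | zero => simp
    | succ n ih => push_cast; linarith [hstep n]
  set m := (1 + β - |p|) / 2 with hm
  have hm0 : 0 < m := by rw [hm]; linarith
  have hlow : ∀ t, m * (‖x t‖ ^ 2 + ‖x (t + 1)‖ ^ 2) ≤ V t := by
    intro t
    have h1 := abs_real_inner_le_norm (x (t + 1)) (x t)
    have h2 : p * inner ℝ (x (t + 1)) (x t) ≤ |p| * (‖x (t + 1)‖ * ‖x t‖) := by
      refine (le_abs_self _).trans ?_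
      rw [abs_mul]; gcongr
    have h3 : ‖x (t + 1)‖ * ‖x t‖ ≤ (‖x t‖ ^ 2 + ‖x (t + 1)‖ ^ 2) / 2 := by
      nlinarith [sq_nonneg (‖x (t + 1)‖ - ‖x t‖)]
    have h4 := mul_le_mul_of_nonneg_left h3 (abs_nonneg p)
    simp only [hV, hm]
    linarith
  have hc0 : 0 ≤ c := by positivity
  have hV0 : 0 ≤ V 0 := le_trans (by positivity) (hlow 0)
  refine ⟨(V 0 + c) / m, by positivity, fun t => ?_⟩
  rw [div_mul_eq_mul_div, le_div_iff₀ hm0]
  have ht : (0 : ℝ) ≤ t := Nat.cast_nonneg t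
  nlinarith [hlow t, hVt t]

lemma exists_good_time {a : ℕ → ℝ} (ha : ∀ t, 0 ≤ a t) {C η : ℝ} (hη : 0 < η) (hC0 : 0 ≤ C)
    (hC : ∀ t : ℕ, a t + a (t + 1) ≤ C * (1 + t)) (T₀ : ℕ)
    (hpos : 0 < ∑ k ∈ Finset.range T₀, a (k + 1)) :
    ∃ T ≥ T₀, a T + a (T + 1) ≤ η * ∑ k ∈ Finset.range T, a (k + 1) := by
  by_contra hcon
  push Not at hcon
  set S : ℕ → ℝ := fun T => ∑ k ∈ Finset.range T, a (k + 1) with hS
  have hstep : ∀ T ≥ T₀, (1 + η) * S T ≤ S (T + 2) := by
    intro T hT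
    have h1 := hcon (T + 1) (by omega)
    simp only [hS, Finset.sum_range_succ] at h1 ⊢
    nlinarith [ha (T + 1)]
  have hpow : ∀ k : ℕ, (1 + η) ^ k * S T₀ ≤ S (T₀ + 2 * k) := by
    intro k
    induction k with
    | zero => simp
    | succ n ih =>
      have := hstep (T₀ + 2 * n) (by omega)
      have e : T₀ + 2 * (n + 1) = T₀ + 2 * n + 2 := by ring
      rw [e, pow_succ]
      nlinarith
  obtain ⟨j, hj⟩ := exists_nat_gt (C * (5 + T₀) / (η ^ 3 * S T₀))
  have hS0 : 0 < S T₀ := hpos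
  have hj0 : (0 : ℝ) < j := lt_of_le_of_lt (by positivity) hj
  have hj1 : (1 : ℝ) ≤ j := by
    have : 0 < j := by exact_mod_cast hj0
    exact_mod_cast this
  rw [div_lt_iff₀ (by positivity)] at hj
  have h1 := hpow (2 * j)
  have h2 := hcon (T₀ + 2 * (2 * j)) (by omega)
  have h3 := hC (T₀ + 2 * (2 * j))
  have h4 : 1 + (j : ℝ) * η ≤ (1 + η) ^ j := one_add_mul_le_pow (by linarith) j
  have h5 : ((j : ℝ) * η) ^ 2 ≤ (1 + η) ^ (2 * j) := by
    rw [mul_comm 2 j, pow_mul]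
    exact pow_le_pow_left₀ (by positivity) (by linarith) 2
  push_cast at h3
  have h6 : η * (((j : ℝ) * η) ^ 2 * S T₀) ≤ η * S (T₀ + 2 * (2 * j)) := by
    gcongr
    exact le_trans (by gcongr) h1
  have h7 : C * (1 + (T₀ + 2 * (2 * (j : ℝ)))) ≤ C * (5 + T₀) * j := by
    rw [mul_assoc]; gcongr
    have : (0 : ℝ) ≤ T₀ := Nat.cast_nonneg _
    nlinarith
  have h8 : C * (5 + T₀) * j < (j * (η ^ 3 * S T₀)) * j := by gcongr
  change η * S (T₀ + 2 * (2 * j)) < _ at h2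
  nlinarith

/-- The sequence generated by a field. -/
noncomputable def genSeq (p β γ : ℝ) (W : E → E) (a b : E) : ℕ → E
  | 0 => a
  | 1 => b
  | t + 2 => p • genSeq p β γ W a b (t + 1) - β • genSeq p β γ W a b t -
      γ • W (genSeq p β γ W a b (t + 1))

lemma dualA_of_not_tendsto {ℓ p β γ : ℝ} (hl : 0 < ℓ) (hβ : β < 1) (hp : |p| < 1 + β)
    {h : E → ℝ} {W : E → E} (H : Fld ℓ h W) (hW0 : W 0 = 0) {x : ℕ → E}
    (hx : ∀ t, x (t + 2) = p • x (t + 1) - β • x t - γ • W (x (t + 1)))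
    (hnot : ¬ Tendsto x atTop (𝓝 0)) : DualA p (p - γ * ℓ) β 0 := by
  have hβ' : |β| ≤ 1 := by
    rw [abs_le]; constructor <;> linarith [abs_nonneg p]
  have hunb : ∀ M : ℝ, ∃ T₀ : ℕ, M < ∑ k ∈ Finset.range T₀, ‖x (k + 1)‖ ^ 2 := by
    intro M
    by_contra hcon
    push Not at hcon
    have h1 : Summable fun k => ‖x (k + 1)‖ ^ 2 :=
      summable_of_sum_range_le (fun k => by positivity) hcon
    have h2 := h1.tendsto_atTop_zero
    have h3 : Tendsto (fun k => ‖x (k + 1)‖) atTop (𝓝 0) := by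
      have := h2.sqrt
      simpa using this
    exact hnot ((tendsto_add_atTop_iff_nat 1).mp (tendsto_zero_iff_norm_tendsto_zero.mpr h3))
  refine dualA_zero fun δ hδ => ?_
  set θ := δ / (20 * ((γ * ℓ) ^ 2 + 1)) with hθ
  have hθ0 : 0 < θ := by positivity
  set η := δ / (8 * (1 / θ + 1)) with hη
  have hη0 : 0 < η := by positivity
  obtain ⟨T₀, hT₀⟩ := hunb (4 * (‖x 0‖ + ‖x 1‖) ^ 2 / η)
  have hpos0 : 0 < ∑ k ∈ Finset.range T₀, ‖x (k + 1)‖ ^ 2 := lt_of_le_of_lt (by positivity) hT₀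
  set pts : Fin (T₀ + 1) → E := fun i => if (i : ℕ) = 0 then 0 else x i with hpts
  obtain ⟨h', W', B, H', hint, hB⟩ := interp hl pts (fun i => W (pts i)) (fun i => h (pts i))
    (fun i j => H _ _)
  have hW'0 : W' 0 = 0 := by
    have := (hint 0).1
    simpa [hpts, hW0] using this
  have hW'k : ∀ k, k < T₀ → W' (x (k + 1)) = W (x (k + 1)) := by
    intro k hk
    have := (hint ⟨k + 1, by omega⟩).1
    simpa [hpts] using this
  set z := genSeq p β γ W' (x 0) (x 1) with hz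
  have hzr : ∀ t, z (t + 2) = p • z (t + 1) - β • z t - γ • W' (z (t + 1)) := fun t => rfl
  have hzx : ∀ t, t ≤ T₀ → z t = x t ∧ z (t + 1) = x (t + 1) := by
    intro t
    induction t with
    | zero => intro _; exact ⟨rfl, rfl⟩
    | succ n ih =>
      intro hn
      obtain ⟨h1, h2⟩ := ih (by omega)
      refine ⟨h2, ?_⟩
      rw [hzr, h1, h2, hW'k n (by omega), hx]
  have hEz : ∑ k ∈ Finset.range T₀, ‖z (k + 1)‖ ^ 2 = ∑ k ∈ Finset.range T₀, ‖x (k + 1)‖ ^ 2 :=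
    Finset.sum_congr rfl fun k hk => by rw [(hzx k (Finset.mem_range.mp hk).le).2]
  obtain ⟨C, hC0, hC⟩ := linear_growth hβ hp hB hzr
  obtain ⟨T, hT, hgood⟩ := exists_good_time (a := fun t => ‖z t‖ ^ 2) (fun t => by positivity)
    (η := η / 8) (by positivity) hC0 hC T₀ (by rw [hEz]; exact hpos0)
  have hmono : ∑ k ∈ Finset.range T₀, ‖z (k + 1)‖ ^ 2 ≤ ∑ k ∈ Finset.range T, ‖z (k + 1)‖ ^ 2 :=
    Finset.sum_le_sum_of_subset_of_nonneg (Finset.range_mono hT) fun k _ _ => by positivity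
  rw [hEz] at hmono
  obtain ⟨T', rfl⟩ : ∃ T', T = T' + 1 := by
    refine Nat.exists_eq_succ_of_ne_zero ?_
    rintro rfl
    simp at hmono
    linarith
  have hfin := dualA_of_trunc hl hβ' H' hW'0 hzr T' (η := η) hθ0 (by linarith) (by
    rw [div_lt_iff₀ hη0] at hT₀
    have e0 : z 0 = x 0 := rfl
    have e1 : z 1 = x 1 := rfl
    rw [e0, e1]
    have h1 := mul_le_mul_of_nonneg_left hmono hη0.le
    nlinarith [sq_nonneg (‖x 0‖ + ‖x 1‖ - (‖z (T' + 1)‖ + ‖z (T' + 2)‖)),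
      sq_nonneg (‖z (T' + 1)‖ - ‖z (T' + 2)‖)])
  obtain ⟨r, h1, h2, h3, h4⟩ := hfin
  have hle : 2 * (η / θ + η + 5 / 2 * θ * (γ * ℓ) ^ 2) ≤ δ := by
    have e1 : η / θ + η = δ / 8 := by rw [hη]; field_simp
    have e2 : θ * (γ * ℓ) ^ 2 ≤ δ / 20 := by
      rw [hθ, div_mul_eq_mul_div, div_le_div_iff₀ (by positivity) (by positivity)]
      nlinarith [sq_nonneg (γ * ℓ)]
    linarith
  exact ⟨r, h1, h2, by linarith, fun l => by linarith [h4 l]⟩

theorem dual_of_not_converges {μ L γ β : ℝ} (hμ : 0 < μ) (hl : μ < L) (hs : Stable L γ β)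
    (hn : ¬ Converges μ L γ β) : Dual μ L γ β := by
  obtain ⟨hβ, hγ, hγL⟩ := hs
  simp only [Converges, not_forall] at hn
  obtain ⟨d, -, f, hf, x, hx, hnot⟩ := hn
  obtain ⟨xs, hxs⟩ := exists_isMinOn hμ hf
  have H := fld_of_inClass hl hf xs
  have e : 1 + β - γ * L = (1 + β - γ * μ) - γ * (L - μ) := by ring
  rw [Dual, e]
  refine dualA_of_not_tendsto (x := fun t => x t - xs) (by linarith) hβ ?_ H ?_ ?_ ?_
  · rw [abs_lt]
    constructor <;> nlinarith
  · simp [grad_eq_zero_of_isMinOn hxs]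
  · intro t
    simp only [sub_add_cancel]
    rw [hx t]
    module
  · intro ht
    refine hnot ⟨xs, hxs, ?_⟩
    simpa using ht.add_const xs

end Pool.Agent.MP_979a03_an
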