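import Mathlib.Topology.Sheaves.Presheaf
import Pool.Agent.MP_979a03_an.Gap
import Pool.Agent.MP_979a03_an.Defs2

/-! Worst-case convergence. -/

namespace Pool.Agent.MP_979a03_an

open Filter Topology

lemma datko {a : ℕ → ℝ} (ha : ∀ t, 0 ≤ a t) {K : ℝ} (hK : 0 < K)
    (h : ∀ s T, ∑ k ∈ Finset.range T, a (k + (s + 1)) ≤ K * (a s + a (s + 1))) (t : ℕ) :
    a t ≤ ((1 + K) / ((3 + K / (1 + K)) / 4) * ((3 + K / (1 + K)) / 4) ^ t) ^ 2 * (a 0 + a 1) := by
  have hsum : ∀ s, Summable fun k => a (k + s) := by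
    intro s
    have h1 : Summable fun k => a (k + (0 + 1)) :=
      summable_of_sum_range_le (fun k => ha _) (h 0)
    exact (summable_nat_add_iff s).mpr ((summable_nat_add_iff (0 + 1)).mp h1)
  set S : ℕ → ℝ := fun s => ∑' k, a (k + s) with hS
  have hS1 : ∀ s, S s = a s + S (s + 1) := by
    intro s
    simp only [hS]
    rw [(hsum s).tsum_eq_zero_add, zero_add]
    congr 1
    exact tsum_congr fun k => by congr 1; ring
  have hS0 : ∀ s, 0 ≤ S s := fun s => tsum_nonneg fun k => ha _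
  have hS2 : ∀ s, S (s + 1) ≤ K * (a s + a (s + 1)) := fun s =>
    Real.tsum_le_of_sum_range_le (fun k => ha _) (h s)
  set κ := K / (1 + K) with hκ
  have hκ0 : 0 < κ := by positivity
  have hκ1 : κ < 1 := by rw [hκ, div_lt_one (by positivity)]; linarith
  have hstep : ∀ s, S (s + 2) ≤ κ * S s := by
    intro s
    rw [hκ, div_mul_eq_mul_div, le_div_iff₀ (by positivity)]
    have h1 := hS1 s
    have h2 := hS1 (s + 1)
    have h3 := hS2 s
    nlinarith [ha (s + 1)]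
  have hpow : ∀ j, S (2 * j) ≤ κ ^ j * S 0 := by
    intro j
    induction j with
    | zero => simp
    | succ n ih =>
      have := hstep (2 * n)
      rw [show 2 * (n + 1) = 2 * n + 2 by ring, pow_succ]
      nlinarith
  set ρ := (3 + κ) / 4 with hρ
  have hρ0 : 0 < ρ := by positivity
  have hρ1 : ρ < 1 := by rw [hρ]; linarith
  have hρκ : κ ≤ ρ ^ 4 := by
    have := one_add_mul_le_pow (a := ρ - 1) (by linarith) 4
    rw [add_sub_cancel] at this
    push_cast at this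
    rw [hρ] at this ⊢
    linarith
  have h1 : a t ≤ S (2 * (t / 2)) := by
    rcases Nat.even_or_odd' t with ⟨j, rfl | rfl⟩
    · rw [Nat.mul_div_cancel_left _ two_pos, hS1]; linarith [hS0 (2 * j + 1)]
    · rw [show (2 * j + 1) / 2 = j by omega, hS1, hS1]
      linarith [hS0 (2 * j + 1 + 1), ha (2 * j)]
  have h2 : S 0 ≤ (1 + K) * (a 0 + a 1) := by
    have := hS2 0
    rw [hS1]; simp only [zero_add] at this ⊢; nlinarith [ha 1]
  have h3 : κ ^ (t / 2) ≤ (ρ ^ t / ρ) ^ 2 := by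
    calc κ ^ (t / 2) ≤ (ρ ^ 4) ^ (t / 2) := by gcongr
      _ = ρ ^ (4 * (t / 2) + 2) / ρ ^ 2 := by rw [← pow_mul, pow_add]; field_simp
      _ ≤ ρ ^ (2 * t) / ρ ^ 2 := by
          gcongr ?_ / _
          exact pow_le_pow_of_le_one hρ0.le hρ1.le (by omega)
      _ = (ρ ^ t / ρ) ^ 2 := by rw [div_pow (ρ ^ t), ← pow_mul, mul_comm]
  have h4 : 0 ≤ a 0 + a 1 := add_nonneg (ha 0) (ha 1)
  calc a t ≤ κ ^ (t / 2) * S 0 := h1.trans (hpow _)
    _ ≤ (ρ ^ t / ρ) ^ 2 * ((1 + K) * (a 0 + a 1)) := by gcongr; exact hS0 0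
    _ ≤ (ρ ^ t / ρ) ^ 2 * ((1 + K) ^ 2 * (a 0 + a 1)) := by gcongr; nlinarith
    _ = _ := by field_simp

theorem linRate_of_not_dual {μ L γ β : ℝ} (hμ : 0 < μ) (hl : μ < L) (hs : Stable L γ β)
    (hn : ¬ Dual μ L γ β) : LinRate μ L γ β := by
  have hconv : Converges μ L γ β := by
    by_contra h; exact hn (dual_of_not_converges hμ hl hs h)
  obtain ⟨hβ, hγ, hγL⟩ := hs
  have hβ' : |β| ≤ 1 := by rw [abs_le]; constructor <;> nlinarith
  have e : 1 + β - γ * L = (1 + β - γ * μ) - γ * (L - μ) := by ring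
  rw [Dual, e] at hn
  obtain ⟨δ, hδ, hnd⟩ : ∃ δ > 0, ¬ DualA (1 + β - γ * μ) (1 + β - γ * μ - γ * (L - μ)) β δ := by
    by_contra h
    push Not at h
    exact hn (dualA_zero h)
  set ℓ := L - μ with hℓ
  have hl' : 0 < ℓ := by rw [hℓ]; linarith
  set θ := δ / (20 * ((γ * ℓ) ^ 2 + 1)) with hθ
  have hθ0 : 0 < θ := by positivity
  set η := δ / (8 * (1 / θ + 1)) with hη
  have hη0 : 0 < η := by positivity
  have hle : 2 * (η / θ + η + 5 / 2 * θ * (γ * ℓ) ^ 2) ≤ δ := by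
    have e1 : η / θ + η = δ / 8 := by rw [hη]; field_simp
    have e2 : θ * (γ * ℓ) ^ 2 ≤ δ / 20 := by
      rw [hθ, div_mul_eq_mul_div, div_le_div_iff₀ (by positivity) (by positivity)]
      nlinarith [sq_nonneg (γ * ℓ)]
    linarith
  set K := 2 / η with hK
  have hK0 : 0 < K := by positivity
  have hκ1 : K / (1 + K) < 1 := by rw [div_lt_one (by positivity)]; linarith
  refine ⟨(1 + K) / ((3 + K / (1 + K)) / 4), (3 + K / (1 + K)) / 4, by positivity, by linarith,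
    fun d hd f hf xs hxs x hx t => ?_⟩
  have H := fld_of_inClass hl hf xs
  have hW0 : gradient f (0 + xs) - μ • (0 : EuclideanSpace ℝ (Fin d)) = 0 := by
    simp [grad_eq_zero_of_isMinOn hxs]
  obtain ⟨xs', hxs', hten⟩ := hconv d hd f hf x hx
  rw [← isMinOn_unique hμ hf (grad_eq_zero_of_isMinOn hxs) hxs'] at hten
  have hten0 : Tendsto (fun t => ‖x t - xs‖) atTop (𝓝 0) :=
    tendsto_iff_norm_sub_tendsto_zero.mp hten
  have key : ∀ s T, ∑ k ∈ Finset.range T, ‖x (k + (s + 1)) - xs‖ ^ 2 ≤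
      K * (‖x s - xs‖ ^ 2 + ‖x (s + 1) - xs‖ ^ 2) := by
    intro s T
    set y : ℕ → EuclideanSpace ℝ (Fin d) := fun t => x (t + s) - xs with hy
    have hyr : ∀ t, y (t + 2) = (1 + β - γ * μ) • y (t + 1) - β • y t -
        γ • (gradient f (y (t + 1) + xs) - μ • y (t + 1)) := by
      intro t
      simp only [hy, sub_add_cancel]
      rw [add_right_comm t 2 s, add_right_comm t 1 s, hx]
      module
    have h1 : ∀ T', η * ∑ k ∈ Finset.range (T' + 1), ‖y (k + 1)‖ ^ 2 ≤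
        (‖y 0‖ + ‖y 1‖ + ‖y (T' + 1)‖ + ‖y (T' + 2)‖) ^ 2 := by
      intro T'
      by_contra hc
      rw [not_le] at hc
      have hpos : 0 < ∑ k ∈ Finset.range (T' + 1), ‖y (k + 1)‖ ^ 2 := by
        by_contra h0
        nlinarith [sq_nonneg (‖y 0‖ + ‖y 1‖ + ‖y (T' + 1)‖ + ‖y (T' + 2)‖)]
      obtain ⟨r, h1, h2, h3, h4⟩ := dualA_of_trunc hl' hβ' H hW0 hyr T' hθ0 hpos hc.le
      exact hnd ⟨r, h1, h2, by linarith, fun l => by linarith [h4 l]⟩
    have hy0 : Tendsto (fun t => ‖y t‖) atTop (𝓝 0) := (tendsto_add_atTop_iff_nat s).mpr hten0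
    have h2 : Tendsto (fun T' => (‖y 0‖ + ‖y 1‖ + ‖y (T' + 1)‖ + ‖y (T' + 2)‖) ^ 2) atTop
        (𝓝 ((‖y 0‖ + ‖y 1‖ + 0 + 0) ^ 2)) :=
      ((tendsto_const_nhds.add ((tendsto_add_atTop_iff_nat 1).mpr hy0)).add
        ((tendsto_add_atTop_iff_nat 2).mpr hy0)).pow 2
    have h3 : η * ∑ k ∈ Finset.range T, ‖y (k + 1)‖ ^ 2 ≤ (‖y 0‖ + ‖y 1‖ + 0 + 0) ^ 2 := by
      refine ge_of_tendsto h2 ((eventually_ge_atTop T).mono fun T' hT' => le_trans ?_ (h1 T'))
      gcongr
      omega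
    have e1 : ∑ k ∈ Finset.range T, ‖x (k + (s + 1)) - xs‖ ^ 2 =
        ∑ k ∈ Finset.range T, ‖y (k + 1)‖ ^ 2 :=
      Finset.sum_congr rfl fun k _ => by simp only [hy]; congr 4; ring
    have e2 : y 0 = x s - xs := by simp [hy]
    have e3 : y 1 = x (s + 1) - xs := by simp [hy, add_comm]
    rw [e1, ← e2, ← e3, hK, div_mul_eq_mul_div, le_div_iff₀ hη0]
    nlinarith [sq_nonneg (‖y 0‖ - ‖y 1‖)]
  have h4 := datko (a := fun t => ‖x t - xs‖ ^ 2) (fun t => by positivity) hK0 key t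
  refine abs_le_of_sq_le_sq' ?_ (by positivity) |>.2
  refine h4.trans ?_
  rw [mul_pow _ (‖x 0 - xs‖ + ‖x 1 - xs‖)]
  gcongr
  nlinarith [norm_nonneg (x 0 - xs), norm_nonneg (x 1 - xs)]

lemma inner_flt_on {E : Type*} [NormedAddCommGroup E] [InnerProductSpace ℝ E] {F : ℤ → E}
    {r : ℤ → ℝ} {N : ℤ}
    (h : ∀ s t, 0 ≤ s → s < N → 0 ≤ t → t < N → inner ℝ (F s) (F t) = r (t - s))
    (p q β : ℝ) {s t : ℤ} (hs : 1 ≤ s) (hs' : s + 1 < N) (ht : 1 ≤ t) (ht' : t + 1 < N) :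
    inner ℝ (flt p β F s) (flt q β F t) = - rho p q β r (t - s) := by
  simp only [flt, inner_add_left, inner_add_right, inner_sub_left, inner_sub_right,
    real_inner_smul_left, real_inner_smul_right, rho]
  rw [h, h, h, h, h, h, h, h, h]
  · have e1 : t + 1 - (s + 1) = t - s := by ring
    have e2 : t - (s + 1) = t - s - 1 := by ring
    have e3 : t - 1 - (s + 1) = t - s - 2 := by ring
    have e4 : t + 1 - s = t - s + 1 := by ring
    have e5 : t - 1 - s = t - s - 1 := by ring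
    have e6 : t + 1 - (s - 1) = t - s + 2 := by ring
    have e7 : t - (s - 1) = t - s + 1 := by ring
    have e8 : t - 1 - (s - 1) = t - s := by ring
    rw [e1, e2, e3, e4, e5, e6, e7, e8]
    ring
  all_goals omega

theorem noDecay_of_dual {μ L γ β : ℝ} (hμ : 0 < μ) (hl : μ < L) (hγ : γ ≠ 0)
    (hd : Dual μ L γ β) : NoDecay μ L γ β := by
  intro T
  obtain ⟨r, hr, h0, hρ, hle⟩ := hd
  rw [neg_zero] at hρ
  simp only [add_zero] at hle
  obtain ⟨v, hv⟩ := hr.exists_gram (T + 3)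
  set X : ℤ → EuclideanSpace ℝ (Fin (T + 3)) :=
    fun t => if h : t.toNat < T + 3 then v ⟨_, h⟩ else 0 with hX
  have hXX : ∀ s t : ℤ, 0 ≤ s → s < (T + 3 : ℕ) → 0 ≤ t → t < (T + 3 : ℕ) →
      inner ℝ (X s) (X t) = r (t - s) := by
    intro s t h1 h2 h3 h4
    simp only [hX]
    rw [dif_pos (by omega), dif_pos (by omega), hv]
    congr 1
    simp only
    omega
  set p := 1 + β - γ * μ with hp
  set q := 1 + β - γ * L with hq
  set w : ℤ → EuclideanSpace ℝ (Fin (T + 3)) := fun t => -(γ⁻¹ • flt p β X t) with hw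
  have hu : ∀ t, (L - μ) • X t - w t = γ⁻¹ • flt q β X t := by
    intro t
    have e : L - μ = γ⁻¹ * (p - q) := by rw [hp, hq]; field_simp; ring
    simp only [hw, flt, e]
    module
  have hwu : ∀ s t : Fin (T + 1), inner ℝ (w (s + 1)) ((L - μ) • X (t + 1) - w (t + 1)) =
      γ⁻¹ ^ 2 * rho p q β r ((t : ℤ) - s) := by
    intro s t
    rw [hu]
    simp only [hw]
    rw [inner_neg_left, real_inner_smul_left, real_inner_smul_right,
      inner_flt_on hXX p q β (by omega) (by omega) (by omega) (by omega), add_sub_add_right_eq_sub]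
    ring
  have hk : 0 ≤ γ⁻¹ ^ 2 := sq_nonneg _
  obtain ⟨f, hf, hg⟩ := interp' (ι := Option (Fin (T + 1))) hμ hl
    (fun i => i.elim 0 fun t => X (t + 1)) (fun i => i.elim 0 fun t => w (t + 1))
    (fun i => i.elim 0 fun _ => 0) (by
      rintro (_ | i) (_ | j)
      · simp
      · simp
      · simp only [Option.elim, smul_zero, inner_zero_right, hwu, sub_self]
        nlinarith [mul_nonneg hk hρ]
      · simp only [Option.elim, hwu, sub_self]
        nlinarith [mul_le_mul_of_nonneg_left (hle ((j : ℤ) - i)) hk])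
  have hg0 : gradient f 0 = 0 := by simpa using (hg none).1
  have hgt : ∀ t : ℕ, t < T + 1 → gradient f (X (t + 1)) = w (t + 1) + μ • X (t + 1) :=
    fun t ht => (hg (some ⟨t, ht⟩)).1
  have hxX : ∀ t : ℕ, t ≤ T + 1 → hbSeq γ β f (X 0) (X 1) t = X t ∧
      hbSeq γ β f (X 0) (X 1) (t + 1) = X (t + 1) := by
    intro t
    induction t with
    | zero => intro _; exact ⟨rfl, by simp [hbSeq]⟩
    | succ n ih =>
      intro hn
      obtain ⟨h1, h2⟩ := ih (by omega)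
      refine ⟨by rw [h2]; push_cast; rfl, ?_⟩
      rw [hbSeq, h1, h2, hgt n (by omega)]
      simp only [hw, flt]
      push_cast
      rw [add_sub_cancel_right, smul_add γ, smul_neg, smul_smul, mul_inv_cancel₀ hγ, hp]
      module
  have hn : ∀ t : ℕ, t ≤ T + 1 → ‖hbSeq γ β f (X 0) (X 1) t - 0‖ = 1 := by
    intro t ht
    rw [(hxX t ht).1, sub_zero]
    have := hXX t t (by omega) (by omega) (by omega) (by omega)
    rw [real_inner_self_eq_norm_sq, sub_self, h0] at this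
    nlinarith [norm_nonneg (X t)]
  exact ⟨T, le_rfl, T + 3, by omega, f, hf, 0, isMinOn_of_grad_zero hμ hf hg0, _, fun t => rfl,
    (hn 0 (by omega)).le, (hn 1 (by omega)).le, (hn T (by omega)).ge⟩

lemma quad_inClass {μ L k : ℝ} (hμ : 0 < μ) (hl : μ < L) (hk0 : 0 ≤ k) (hk : k ≤ L - μ) (d : ℕ) :
    ∃ f : EuclideanSpace ℝ (Fin d) → ℝ, InClass μ L f ∧ ∀ y, gradient f y = (k + μ) • y := by
  have hl' : 0 < L - μ := by linarith
  have H : Fld (E := EuclideanSpace ℝ (Fin d)) (L - μ) (fun y => k / 2 * ‖y‖ ^ 2)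
      (fun y => k • y) := by
    intro x y
    have e : ‖y‖ ^ 2 = ‖x‖ ^ 2 + 2 * inner ℝ x (y - x) + ‖y - x‖ ^ 2 := by
      have : y = x + (y - x) := by abel
      conv_lhs => rw [this]
      rw [norm_add_sq_real]
    simp only
    rw [← smul_sub, norm_smul, mul_pow, Real.norm_eq_abs, sq_abs, real_inner_smul_left, e]
    have h1 : k ^ 2 * ‖y - x‖ ^ 2 / (2 * (L - μ)) ≤ k / 2 * ‖y - x‖ ^ 2 := by
      rw [div_le_iff₀ (by positivity)]
      have := mul_nonneg (mul_nonneg hk0 (sub_nonneg.mpr hk)) (sq_nonneg ‖y - x‖)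
      nlinarith
    linarith
  obtain ⟨hf, hg⟩ := H.inClass hμ hl
  exact ⟨_, hf, fun y => by rw [hg, add_smul]⟩

theorem noDecay_of_not_stable {μ L γ β : ℝ} (hμ : 0 < μ) (hl : μ < L) (hs : ¬ Stable L γ β) :
    NoDecay μ L γ β := by
  intro T
  by_cases hroot : ∃ k, 0 ≤ k ∧ k ≤ L - μ ∧ 1 + β ≤ |1 + β - γ * (k + μ)|
  · obtain ⟨k, hk0, hk, h⟩ := hroot
    obtain ⟨z, hz, hz0⟩ := exists_root h
    obtain ⟨f, hf, hg⟩ := quad_inClass hμ hl hk0 hk 1
    have hz1 : 0 < |z| := by linarith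
    set e : EuclideanSpace ℝ (Fin 1) := EuclideanSpace.single 0 1 with he
    have hn : ∀ t : ℕ, ‖(z ^ t / |z|) • e - 0‖ = |z| ^ t / |z| := by
      intro t; simp [norm_smul, he]
    refine ⟨T + 1, by omega, 1, le_rfl, f, hf, 0, isMinOn_of_grad_zero hμ hf (by simp [hg]),
      fun t => (z ^ t / |z|) • e, fun t => ?_, ?_, ?_, ?_⟩
    · simp only [hg]
      rw [pow_add, hz0]
      match_scalars
      field_simp
      ring
    · rw [hn, pow_zero, div_le_one hz1]; exact hz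
    · rw [hn, pow_one, div_self hz1.ne']
    · rw [hn, pow_succ, mul_div_cancel_right₀ _ hz1.ne']; exact one_le_pow₀ hz
  · push Not at hroot
    have h1 := abs_lt.mp (hroot 0 le_rfl (by linarith))
    have h2 := abs_lt.mp (hroot (L - μ) (by linarith) le_rfl)
    have hβ : 1 ≤ β := by
      by_contra hβ
      refine hs ⟨not_le.mp hβ, ?_, by nlinarith⟩
      by_contra hγ
      nlinarith
    set a := 1 + β - γ * (0 + μ) with ha
    obtain ⟨f, hf, hg⟩ := quad_inClass hμ hl le_rfl (by linarith) 2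
    set x : ℕ → EuclideanSpace ℝ (Fin 2) := fun t => !₂[recSeq a β 1 0 t, recSeq a β 0 1 t]
      with hx
    have hHB : IsHB γ β f x := by
      intro t
      rw [hg]
      ext i
      fin_cases i <;> simp [hx, recSeq, ha] <;> ring
    have hW : ∀ t, 1 ≤ recSeq a β 0 1 (t + 1) * recSeq a β 1 0 t -
        recSeq a β 0 1 t * recSeq a β 1 0 (t + 1) := by
      intro t
      induction t with
      | zero => simp [recSeq]
      | succ n ih =>
        rw [recSeq, recSeq]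
        nlinarith
    have hn : ∀ t, ‖x t - 0‖ ^ 2 = recSeq a β 1 0 t ^ 2 + recSeq a β 0 1 t ^ 2 := by
      intro t
      simp [hx, EuclideanSpace.norm_sq_eq, Fin.sum_univ_two]
    have h0 : ‖x 0 - 0‖ ≤ 1 := by
      have := hn 0; simp only [recSeq] at this; nlinarith [norm_nonneg (x 0 - 0)]
    have h1' : ‖x 1 - 0‖ ≤ 1 := by
      have := hn 1; simp only [recSeq] at this; nlinarith [norm_nonneg (x 1 - 0)]
    have hmin := isMinOn_of_grad_zero hμ hf (a := 0) (by simp [hg])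
    by_cases hT : 1 ≤ ‖x T - 0‖
    · exact ⟨T, le_rfl, 2, by norm_num, f, hf, 0, hmin, x, hHB, h0, h1', hT⟩
    · refine ⟨T + 1, by omega, 2, by norm_num, f, hf, 0, hmin, x, hHB, h0, h1', ?_⟩
      by_contra hT'
      rw [not_le] at hT hT'
      have a1 : ‖x T - 0‖ ^ 2 < 1 := by nlinarith [norm_nonneg (x T - 0)]
      have a2 : ‖x (T + 1) - 0‖ ^ 2 < 1 := by nlinarith [norm_nonneg (x (T + 1) - 0)]
      rw [hn] at a1 a2
      nlinarith [hW T, sq_nonneg (recSeq a β 0 1 (T + 1) - recSeq a β 1 0 T),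
        sq_nonneg (recSeq a β 0 1 T + recSeq a β 1 0 (T + 1))]

lemma dual_iff_mem_closure {μ L γ β : ℝ} (hμ : 0 < μ) (hl : μ < L) (hs : Stable L γ β) :
    Dual μ L γ β ↔ (γ, β) ∈ closure {p : ℝ × ℝ | InCyc μ L p.1 p.2} := by
  constructor
  · intro hd
    have hs0 : 0 < 1 + β := by nlinarith [hs.2.1, hs.2.2]
    have h1 : Tendsto (fun β' : ℝ => (γ * (1 + β') / (1 + β), β')) (𝓝[>] β)
        (𝓝 (γ * (1 + β) / (1 + β), β)) :=
      tendsto_nhdsWithin_of_tendsto_nhds (Continuous.tendsto (by fun_prop) β)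
    rw [mul_div_cancel_right₀ _ hs0.ne'] at h1
    refine mem_closure_of_tendsto h1 ?_
    filter_upwards [self_mem_nhdsWithin, nhdsWithin_le_nhds (gt_mem_nhds hs.1)] with β' h2 h3
    exact inCyc_of_dual hμ hl hs hd h2 h3
  · intro hc
    have hUo : IsOpen ({p : ℝ × ℝ | p.2 < 1} ∩ {p | 0 < p.1} ∩ {p | p.1 * L < 2 * (1 + p.2)}) :=
      ((isOpen_lt (by fun_prop) (by fun_prop)).inter (isOpen_lt (by fun_prop) (by fun_prop))).inter
        (isOpen_lt (by fun_prop) (by fun_prop))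
    have h1 := hUo.inter_closure (a := (γ, β)) ⟨⟨⟨hs.1, hs.2.1⟩, hs.2.2⟩, hc⟩
    refine (isClosed_dual μ L).closure_subset_iff.mpr ?_ h1
    rintro ⟨γ', β'⟩ ⟨⟨⟨a1, a2⟩, a3⟩, a4⟩
    exact dual_of_not_converges hμ hl ⟨a1, a2, a3⟩ (not_converges_of_inCyc a4)

end Pool.Agent.MP_979a03_an
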